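import Mathlib

set_option autoImplicit false

open Finset

namespace Pool.Agent.Helper42.CliqueCounts

open Classical in
/-- cliques (the empty set included) of `G` contained in the finite set `A`. -/
noncomputable def cliquesOn {V : Type*} (G : SimpleGraph V) (A : Finset V) : Finset (Finset V) :=
  A.powerset.filter (fun s => G.IsClique (s : Set V))

/-- number of cliques (the empty set included) of `G` contained in the finite set `A`. -/
noncomputable def ccOn {V : Type*} (G : SimpleGraph V) (A : Finset V) : ℕ :=
  (cliquesOn G A).card

lemma mem_cliquesOn {V : Type*} {G : SimpleGraph V} {A s : Finset V} :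
    s ∈ cliquesOn G A ↔ s ⊆ A ∧ G.IsClique (s : Set V) := by
  classical
  simp [cliquesOn]

/-- there is a finite graph with `n` vertices, exactly `T` cliques (the empty set included), and
a clique with `b` vertices. -/
def NB (n b T : ℕ) : Prop :=
  ∃ (V : Type) (G : SimpleGraph V) (A B : Finset V),
    A.card = n ∧ B ⊆ A ∧ B.card = b ∧ G.IsClique (B : Set V) ∧ ccOn G A = T

/-- adjacency of the graph obtained by adding a family of pairwise nonadjacent vertices `w : W`,
`w` being joined to the vertices of `Y w`. -/
def addAdj {V W : Type} (G : SimpleGraph V) (Y : W → Finset V) : V ⊕ W → V ⊕ W → Prop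
  | Sum.inl v, Sum.inl v' => G.Adj v v'
  | Sum.inl v, Sum.inr w => v ∈ Y w
  | Sum.inr w, Sum.inl v => v ∈ Y w
  | Sum.inr _, Sum.inr _ => False

/-- the graph obtained by adding a family of pairwise nonadjacent vertices `w : W`,
`w` being joined to the vertices of `Y w`. -/
def addGraph {V W : Type} (G : SimpleGraph V) (Y : W → Finset V) : SimpleGraph (V ⊕ W) where
  Adj := addAdj G Y
  symm := by
    constructor
    rintro (v | w) (v' | w') h
    · exact SimpleGraph.Adj.symm h
    · exact h
    · exact h
    · exact h
  loopless := by
    constructor
    rintro (v | w) h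
    · exact G.loopless.irrefl v h
    · exact h

lemma isClique_addGraph_map {V W : Type} (G : SimpleGraph V) (Y : W → Finset V)
    (t : Finset V) : (addGraph G Y).IsClique ((t.map Function.Embedding.inl : Finset (V ⊕ W)) :
      Set (V ⊕ W)) ↔ G.IsClique (t : Set V) := by
  constructor
  · intro h a ha b hb hab
    have := h (x := Sum.inl a) (by simpa using ha) (y := Sum.inl b) (by simpa using hb)
      (by simpa using hab)
    exact this
  · intro h x hx y hy hxy
    simp only [coe_map, Set.mem_image, mem_coe] at hx hy
    obtain ⟨a, ha, rfl⟩ := hx
    obtain ⟨b, hb, rfl⟩ := hy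
    exact h ha hb (by rintro rfl; exact hxy rfl)

lemma ccOn_addGraph {V W : Type} [Fintype W] (G : SimpleGraph V) (Y : W → Finset V)
    (A : Finset V) (hY : ∀ w, Y w ⊆ A) :
    ccOn (addGraph G Y) (A.disjSum (univ : Finset W)) = ccOn G A + ∑ w, ccOn G (Y w) := by
  classical
  have key : ((cliquesOn G A).disjSum (univ.sigma (fun w : W => cliquesOn G (Y w)))).card
      = (cliquesOn (addGraph G Y) (A.disjSum (univ : Finset W))).card := by
    refine Finset.card_bij
      (fun x _ => Sum.elim (fun t => t.map Function.Embedding.inl)
        (fun p => insert (Sum.inr p.1) (p.2.map Function.Embedding.inl)) x) ?_ ?_ ?_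
    · rintro (t | ⟨w, t⟩) hx
      · rw [Finset.inl_mem_disjSum, mem_cliquesOn] at hx
        simp only [Sum.elim_inl]
        rw [mem_cliquesOn, isClique_addGraph_map]
        refine ⟨?_, hx.2⟩
        intro y hy
        simp only [mem_map, Function.Embedding.inl_apply] at hy
        obtain ⟨a, ha, rfl⟩ := hy
        simpa using hx.1 ha
      · rw [Finset.inr_mem_disjSum] at hx
        simp only [mem_sigma, mem_univ, true_and] at hx
        rw [mem_cliquesOn] at hx
        simp only [Sum.elim_inr]
        rw [mem_cliquesOn]
        refine ⟨?_, ?_⟩
        · intro y hy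
          simp only [mem_insert, mem_map, Function.Embedding.inl_apply] at hy
          rcases hy with rfl | ⟨a, ha, rfl⟩
          · simp
          · simpa using hY w (hx.1 ha)
        · rw [coe_insert, SimpleGraph.isClique_insert]
          refine ⟨(isClique_addGraph_map G Y t).2 hx.2, ?_⟩
          intro b hb _
          simp only [coe_map, Set.mem_image, mem_coe, Function.Embedding.inl_apply] at hb
          obtain ⟨a, ha, rfl⟩ := hb
          exact hx.1 ha
    · rintro (t | ⟨w, t⟩) hx (t' | ⟨w', t'⟩) hx' h
      · simp only [Sum.elim_inl] at h
        rw [Finset.map_inj] at h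
        rw [h]
      · exfalso
        simp only [Sum.elim_inl, Sum.elim_inr] at h
        have : Sum.inr w' ∈ (t.map Function.Embedding.inl : Finset (V ⊕ W)) := by
          rw [h]; simp
        simp at this
      · exfalso
        simp only [Sum.elim_inl, Sum.elim_inr] at h
        have : Sum.inr w ∈ (t'.map Function.Embedding.inl : Finset (V ⊕ W)) := by
          rw [← h]; simp
        simp at this
      · simp only [Sum.elim_inr] at h
        have hw : w = w' := by
          have : Sum.inr w ∈ (insert (Sum.inr w') (t'.map Function.Embedding.inl) :
            Finset (V ⊕ W)) := by rw [← h]; simp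
          simpa using this
        subst hw
        have ht : t = t' := by
          ext a
          have h1 : (Sum.inl a : V ⊕ W) ∈ (insert (Sum.inr w) (t.map Function.Embedding.inl) :
            Finset (V ⊕ W)) ↔ Sum.inl a ∈ (insert (Sum.inr w) (t'.map Function.Embedding.inl) :
            Finset (V ⊕ W)) := by rw [h]
          simpa using h1
        rw [ht]
    · intro s hs
      rw [mem_cliquesOn] at hs
      obtain ⟨hs1, hs2⟩ := hs
      by_cases hr : s.toRight = ∅
      · refine ⟨Sum.inl s.toLeft, ?_, ?_⟩
        · rw [Finset.inl_mem_disjSum, mem_cliquesOn]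
          refine ⟨?_, ?_⟩
          · intro a ha
            rw [Finset.mem_toLeft] at ha
            simpa using hs1 ha
          · intro a ha b hb hab
            rw [mem_coe, Finset.mem_toLeft] at ha hb
            exact hs2 (x := Sum.inl a) (by simpa using ha) (y := Sum.inl b) (by simpa using hb)
              (by simpa using hab)
        · simp only [Sum.elim_inl]
          ext (a | w)
          · simp
          · have : w ∉ s.toRight := by rw [hr]; simp
            rw [Finset.mem_toRight] at this
            simp [this]
      · obtain ⟨w, hw⟩ := Finset.nonempty_iff_ne_empty.2 hr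
        rw [Finset.mem_toRight] at hw
        refine ⟨Sum.inr ⟨w, s.toLeft⟩, ?_, ?_⟩
        · rw [Finset.inr_mem_disjSum]
          simp only [mem_sigma, mem_univ, true_and]
          rw [mem_cliquesOn]
          refine ⟨?_, ?_⟩
          · intro a ha
            rw [Finset.mem_toLeft] at ha
            exact hs2 (x := Sum.inl a) (by simpa using ha) (y := Sum.inr w) (by simpa using hw)
              (by simp)
          · intro a ha b hb hab
            rw [mem_coe, Finset.mem_toLeft] at ha hb
            exact hs2 (x := Sum.inl a) (by simpa using ha) (y := Sum.inl b) (by simpa using hb)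
              (by simpa using hab)
        · simp only [Sum.elim_inr]
          ext (a | w')
          · simp
          · simp only [mem_insert, Sum.inr.injEq, mem_map, Function.Embedding.inl_apply,
              reduceCtorEq, and_false, exists_false, or_false]
            constructor
            · rintro rfl
              exact hw
            · intro hw'
              by_contra hne
              exact hs2 (x := Sum.inr w') (by simpa using hw') (y := Sum.inr w)
                (by simpa using hw) (by simpa using hne)
  unfold ccOn
  rw [← key, Finset.card_disjSum, Finset.card_sigma]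

/-- cliques inside a clique. -/
lemma ccOn_of_isClique {V : Type*} (G : SimpleGraph V) (B : Finset V)
    (hB : G.IsClique (B : Set V)) : ccOn G B = 2 ^ B.card := by
  unfold ccOn
  have : cliquesOn G B = B.powerset := by
    ext s
    rw [mem_cliquesOn, mem_powerset]
    constructor
    · exact fun h => h.1
    · intro h
      exact ⟨h, hB.subset (by exact_mod_cast h)⟩
  rw [this, card_powerset]

lemma ccOn_le {V : Type*} (G : SimpleGraph V) (B : Finset V) : ccOn G B ≤ 2 ^ B.card := by
  classical
  unfold ccOn cliquesOn
  rw [← card_powerset]
  exact card_filter_le _ _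

/-- Adding one vertex joined to `f` vertices of the distinguished clique. -/
lemma NB.add {n b T : ℕ} (h : NB n b T) (f : ℕ) (hf : f ≤ b) : NB (n + 1) b (T + 2 ^ f) := by
  obtain ⟨V, G, A, B, hA, hBA, hB, hBc, hT⟩ := h
  obtain ⟨X, hX, hXc⟩ := Finset.exists_subset_card_eq (hB ▸ hf)
  refine ⟨V ⊕ Unit, addGraph G (fun _ => X), A.disjSum univ, B.map Function.Embedding.inl,
    ?_, ?_, ?_, ?_, ?_⟩
  · rw [card_disjSum, hA]; simp
  · intro x hx
    simp only [mem_map, Function.Embedding.inl_apply] at hx
    obtain ⟨a, ha, rfl⟩ := hx
    simpa using hBA ha
  · rw [card_map, hB]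
  · rw [isClique_addGraph_map]; exact hBc
  · rw [ccOn_addGraph _ _ _ (fun _ => hX.trans hBA), hT]
    simp only [univ_unique, sum_const, card_singleton, one_smul]
    rw [ccOn_of_isClique G X (hBc.subset (by exact_mod_cast hX)), hXc]

/-- Adding one vertex joined to exactly the distinguished clique, and enlarging this clique. -/
lemma NB.grow {n b T : ℕ} (h : NB n b T) : NB (n + 1) (b + 1) (T + 2 ^ b) := by
  classical
  obtain ⟨V, G, A, B, hA, hBA, hB, hBc, hT⟩ := h
  refine ⟨V ⊕ Unit, addGraph G (fun _ => B), A.disjSum univ,
    insert (Sum.inr ()) (B.map Function.Embedding.inl),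
    ?_, ?_, ?_, ?_, ?_⟩
  · rw [card_disjSum, hA]; simp
  · intro x hx
    simp only [mem_insert, mem_map, Function.Embedding.inl_apply] at hx
    rcases hx with rfl | ⟨a, ha, rfl⟩
    · simp
    · simpa using hBA ha
  · rw [card_insert_of_notMem (by simp), card_map, hB]
  · rw [coe_insert, SimpleGraph.isClique_insert]
    refine ⟨(isClique_addGraph_map G _ B).2 hBc, ?_⟩
    intro b hb _
    simp only [coe_map, Set.mem_image, mem_coe, Function.Embedding.inl_apply] at hb
    obtain ⟨a, ha, rfl⟩ := hb
    exact ha
  · rw [ccOn_addGraph _ _ _ (fun _ => hBA), hT]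
    simp only [univ_unique, sum_const, card_singleton, one_smul]
    rw [ccOn_of_isClique G B hBc, hB]

end Pool.Agent.Helper42.CliqueCounts
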