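import Mathlib
import Pool.Agent.Helper42.CliqueCounts.Basic

set_option autoImplicit false

open Finset

namespace Pool.Agent.Helper42.CliqueCounts

/-- Cliques in the union of a finite set `U` and a clique `B`. -/
lemma ccOn_union {V : Type*} [DecidableEq V] (G : SimpleGraph V) (U B : Finset V)
    (hUB : Disjoint U B) (hB : G.IsClique (B : Set V)) :
    open Classical in
    ccOn G (U ∪ B) = ∑ S ∈ cliquesOn G U, 2 ^ (B.filter (fun b => ∀ u ∈ S, G.Adj u b)).card := by
  classical
  unfold ccOn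
  rw [Finset.card_eq_sum_card_fiberwise (f := fun s : Finset V => s ∩ U)
    (t := cliquesOn G U)]
  · refine Finset.sum_congr rfl ?_
    intro S hS
    rw [mem_cliquesOn] at hS
    rw [← card_powerset]
    refine Finset.card_nbij' (fun s => s \ U) (fun X => S ∪ X) ?_ ?_ ?_ ?_
    · intro s hs
      simp only [coe_filter, mem_cliquesOn, Set.mem_ofPred_eq] at hs
      obtain ⟨⟨h1, h2⟩, h3⟩ := hs
      simp only [coe_powerset, Set.mem_preimage, Set.mem_powerset_iff, coe_subset]
      intro b hb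
      rw [mem_sdiff] at hb
      rw [mem_filter]
      refine ⟨?_, ?_⟩
      · rcases mem_union.1 (h1 hb.1) with h | h
        · exact absurd h hb.2
        · exact h
      · intro u hu
        rw [← h3, mem_inter] at hu
        exact h2 (mem_coe.2 hu.1) (mem_coe.2 hb.1) (by rintro rfl; exact hb.2 hu.2)
    · intro X hX
      simp only [coe_powerset, Set.mem_preimage, Set.mem_powerset_iff, coe_subset] at hX
      have hXB : X ⊆ B := hX.trans (filter_subset _ _)
      simp only [coe_filter, mem_cliquesOn, Set.mem_ofPred_eq]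
      refine ⟨⟨?_, ?_⟩, ?_⟩
      · exact union_subset_union hS.1 hXB
      · intro a ha b hb hab
        rw [mem_coe, mem_union] at ha hb
        rcases ha with ha | ha <;> rcases hb with hb | hb
        · exact hS.2 ha hb hab
        · exact (mem_filter.1 (hX hb)).2 a ha
        · exact ((mem_filter.1 (hX ha)).2 b hb).symm
        · exact hB (hXB ha) (hXB hb) hab
      · ext a
        rw [mem_inter, mem_union]
        constructor
        · rintro ⟨h | h, h'⟩
          · exact h
          · exact absurd (hXB h) (Finset.disjoint_left.1 hUB h')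
        · intro h
          exact ⟨Or.inl h, hS.1 h⟩
    · intro s hs
      simp only [coe_filter, mem_cliquesOn, Set.mem_ofPred_eq] at hs
      obtain ⟨⟨h1, h2⟩, h3⟩ := hs
      ext a
      rw [mem_union, ← h3, mem_inter, mem_sdiff]
      by_cases h : a ∈ U
      · simp [h]
      · simp [h]
    · intro X hX
      simp only [coe_powerset, Set.mem_preimage, Set.mem_powerset_iff, coe_subset] at hX
      have hXB : X ⊆ B := hX.trans (filter_subset _ _)
      ext a
      rw [mem_sdiff, mem_union]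
      constructor
      · rintro ⟨h | h, h'⟩
        · exact absurd (hS.1 h) h'
        · exact h
      · intro h
        exact ⟨Or.inr h, fun h' => Finset.disjoint_left.1 hUB h' (hXB h)⟩
  · intro s hs
    rw [mem_coe, mem_cliquesOn] at hs ⊢
    exact ⟨inter_subset_right, hs.2.subset (by exact_mod_cast inter_subset_left)⟩

/-- vertices of the universal graph. -/
inductive Vtx : Type
  | ctl (i l : ℕ) (a : Bool) : Vtx
  | free (k : ℕ) : Vtx
  | base (i l k : ℕ) : Vtx
  | pen (i l : ℕ) (k : Bool) : Vtx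
  | pt (i x : ℕ) : Vtx
deriving DecidableEq

/-- the (one-sided) description of the nonadjacent pairs -/
def nonadj : Vtx → Vtx → Prop
  | Vtx.ctl i l a, Vtx.base j m _ => i = j ∧ l = m ∧ a = false
  | Vtx.ctl i l _, Vtx.pen j m _ => i = j ∧ l = m
  | Vtx.ctl i l a, Vtx.pt j x => i = j ∧ Nat.testBit x l ≠ a
  | Vtx.ctl i l _, Vtx.ctl j m _ => i = j ∧ l = m
  | _, _ => False

/-- the universal graph. -/
def HG : SimpleGraph Vtx where
  Adj p q := p ≠ q ∧ ¬ nonadj p q ∧ ¬ nonadj q p
  symm := ⟨fun _ _ h => ⟨h.1.symm, h.2.2, h.2.1⟩⟩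
  loopless := ⟨fun _ h => h.1 rfl⟩

/-- not a control vertex -/
def isB : Vtx → Prop
  | Vtx.ctl _ _ _ => False
  | _ => True

/-- the number of the block of a vertex (`none` for the free vertices) -/
def blk : Vtx → Option ℕ
  | Vtx.ctl i _ _ => some i
  | Vtx.free _ => none
  | Vtx.base i _ _ => some i
  | Vtx.pen i _ _ => some i
  | Vtx.pt i _ => some i

lemma adj_of_isB {p q : Vtx} (hp : isB p) (hq : isB q) (h : p ≠ q) : HG.Adj p q := by
  refine ⟨h, ?_, ?_⟩
  · cases p <;> simp_all [nonadj, isB]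
  · cases q <;> simp_all [nonadj, isB]

lemma isClique_of_isB (B : Finset Vtx) (hB : ∀ b ∈ B, isB b) : HG.IsClique (B : Set Vtx) := by
  intro p hp q hq h
  exact adj_of_isB (hB p hp) (hB q hq) h

lemma adj_ctl_of_blk_ne {i l : ℕ} {a : Bool} {q : Vtx} (hq : isB q) (h : blk q ≠ some i) :
    HG.Adj (Vtx.ctl i l a) q := by
  refine ⟨?_, ?_, ?_⟩
  · rintro rfl
    simp [isB] at hq
  · cases q <;> simp_all [nonadj, isB, blk] <;> tauto
  · cases q <;> simp_all [nonadj, isB]

lemma testBit_sum (t x : ℕ) :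
    ∑ l ∈ (range t).filter (fun l => Nat.testBit x l = true), 2 ^ l = x % 2 ^ t := by
  induction t generalizing x with
  | zero => simp [Nat.mod_one]
  | succ t ih =>
    rw [Finset.range_add_one, Finset.filter_insert]
    have h2 : x % 2 ^ (t + 1) = x % 2 ^ t + 2 ^ t * (x / 2 ^ t % 2) := by
      rw [pow_succ, Nat.mod_mul]
    by_cases h : Nat.testBit x t = true
    · rw [if_pos h, Finset.sum_insert (by simp), ih, h2]
      rw [Nat.testBit_eq_decide_div_mod_eq] at h
      have h3 : x / 2 ^ t % 2 = 1 := by simpa using h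
      rw [h3]; ring
    · rw [if_neg h, ih, h2]
      rw [Nat.testBit_eq_decide_div_mod_eq] at h
      have h3 : x / 2 ^ t % 2 = 0 := by
        have : ¬ (x / 2 ^ t % 2 = 1) := by simpa using h
        omega
      rw [h3]; ring

/-- the control vertices of block `i` -/
def Ui (i t : ℕ) : Finset Vtx :=
  (range t ×ˢ (univ : Finset Bool)).image (fun p : ℕ × Bool => Vtx.ctl i p.1 p.2)

/-- base vertices of block `i` attached to the coordinates in `L` -/
def basePart (i : ℕ) (L : Finset ℕ) : Finset Vtx :=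
  L.biUnion (fun l => (range (2 * 2 ^ l)).image (Vtx.base i l))

/-- penalty vertices of block `i` -/
def penPart (i : ℕ) (L : Finset ℕ) : Finset Vtx :=
  (L ×ˢ (univ : Finset Bool)).image (fun p : ℕ × Bool => Vtx.pen i p.1 p.2)

/-- point vertices of block `i` -/
def ptPart (i : ℕ) (α : Finset ℕ) : Finset Vtx := α.image (Vtx.pt i)

/-- the noncontrol vertices of block `i` with the point vertices of `α` -/
def Bi (i t : ℕ) (α : Finset ℕ) : Finset Vtx :=
  basePart i (range t) ∪ penPart i (range t) ∪ ptPart i α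

/-- the full control set of the point `x` -/
def Sx (i t x : ℕ) : Finset Vtx := (range t).image (fun l => Vtx.ctl i l (Nat.testBit x l))

lemma mem_Ui {i t : ℕ} {v : Vtx} : v ∈ Ui i t ↔ ∃ l a, l < t ∧ v = Vtx.ctl i l a := by
  simp only [Ui, mem_image, mem_product, mem_range, mem_univ, and_true, Prod.exists]
  constructor
  · rintro ⟨l, a, h, rfl⟩; exact ⟨l, a, h, rfl⟩
  · rintro ⟨l, a, h, rfl⟩; exact ⟨l, a, h, rfl⟩

lemma mem_basePart {i : ℕ} {L : Finset ℕ} {v : Vtx} :
    v ∈ basePart i L ↔ ∃ l k, l ∈ L ∧ k < 2 * 2 ^ l ∧ v = Vtx.base i l k := by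
  simp only [basePart, mem_biUnion, mem_image, mem_range]
  constructor
  · rintro ⟨l, h, k, hk, rfl⟩; exact ⟨l, k, h, hk, rfl⟩
  · rintro ⟨l, k, h, hk, rfl⟩; exact ⟨l, h, k, hk, rfl⟩

lemma mem_penPart {i : ℕ} {L : Finset ℕ} {v : Vtx} :
    v ∈ penPart i L ↔ ∃ l k, l ∈ L ∧ v = Vtx.pen i l k := by
  simp only [penPart, mem_image, mem_product, mem_univ, and_true, Prod.exists]
  constructor
  · rintro ⟨l, a, h, rfl⟩; exact ⟨l, a, h, rfl⟩
  · rintro ⟨l, a, h, rfl⟩; exact ⟨l, a, h, rfl⟩

lemma mem_ptPart {i : ℕ} {α : Finset ℕ} {v : Vtx} :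
    v ∈ ptPart i α ↔ ∃ x, x ∈ α ∧ v = Vtx.pt i x := by
  simp only [ptPart, mem_image]
  constructor
  · rintro ⟨l, h, rfl⟩; exact ⟨l, h, rfl⟩
  · rintro ⟨l, h, rfl⟩; exact ⟨l, h, rfl⟩

lemma mem_Sx {i t x : ℕ} {v : Vtx} :
    v ∈ Sx i t x ↔ ∃ l, l < t ∧ v = Vtx.ctl i l (Nat.testBit x l) := by
  simp only [Sx, mem_image, mem_range]
  constructor
  · rintro ⟨l, h, rfl⟩; exact ⟨l, h, rfl⟩
  · rintro ⟨l, h, rfl⟩; exact ⟨l, h, rfl⟩

lemma card_basePart (i : ℕ) (L : Finset ℕ) : (basePart i L).card = ∑ l ∈ L, 2 * 2 ^ l := by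
  unfold basePart
  rw [card_biUnion]
  · refine sum_congr rfl ?_
    intro l _
    rw [card_image_of_injective, card_range]
    intro a b h
    simpa using h
  · intro l _ m _ hlm
    rw [Function.onFun, Finset.disjoint_left]
    intro v hv hv'
    simp only [mem_image, mem_range] at hv hv'
    obtain ⟨k, _, rfl⟩ := hv
    obtain ⟨k', _, h⟩ := hv'
    simp only [Vtx.base.injEq, true_and] at h
    exact hlm h.1.symm

lemma card_penPart (i : ℕ) (L : Finset ℕ) : (penPart i L).card = 2 * L.card := by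
  unfold penPart
  rw [card_image_of_injective, card_product]
  · simp [mul_comm]
  · rintro ⟨a, b⟩ ⟨c, d⟩ h
    simpa using h

lemma card_ptPart (i : ℕ) (α : Finset ℕ) : (ptPart i α).card = α.card := by
  unfold ptPart
  rw [card_image_of_injective]
  intro a b h
  simpa using h

lemma isB_of_mem_Bi {i t : ℕ} {α : Finset ℕ} {v : Vtx} (h : v ∈ Bi i t α) : isB v := by
  unfold Bi at h
  rw [mem_union, mem_union, mem_basePart, mem_penPart, mem_ptPart] at h
  rcases h with (⟨l, k, _, _, rfl⟩ | ⟨l, k, _, rfl⟩) | ⟨x, _, rfl⟩ <;> simp [isB]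

lemma blk_of_mem_Bi {i t : ℕ} {α : Finset ℕ} {v : Vtx} (h : v ∈ Bi i t α) : blk v = some i := by
  unfold Bi at h
  rw [mem_union, mem_union, mem_basePart, mem_penPart, mem_ptPart] at h
  rcases h with (⟨l, k, _, _, rfl⟩ | ⟨l, k, _, rfl⟩) | ⟨x, _, rfl⟩ <;> simp [blk]

/-- adjacency of a control vertex to the vertices of its own block -/
lemma adj_ctl_base {i l m k : ℕ} {a : Bool} :
    HG.Adj (Vtx.ctl i l a) (Vtx.base i m k) ↔ ¬ (l = m ∧ a = false) := by
  constructor
  · rintro ⟨_, h, _⟩ ⟨h1, h2⟩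
    exact h ⟨rfl, h1, h2⟩
  · intro h
    exact ⟨by simp, fun h' => h h'.2, by simp [nonadj]⟩

lemma adj_ctl_pen {i l m : ℕ} {k : Bool} {a : Bool} :
    HG.Adj (Vtx.ctl i l a) (Vtx.pen i m k) ↔ l ≠ m := by
  constructor
  · rintro ⟨_, h, _⟩ h1
    exact h ⟨rfl, h1⟩
  · intro h
    exact ⟨by simp, fun h' => h h'.2, by simp [nonadj]⟩

lemma adj_ctl_pt {i l x : ℕ} {a : Bool} :
    HG.Adj (Vtx.ctl i l a) (Vtx.pt i x) ↔ Nat.testBit x l = a := by
  constructor
  · rintro ⟨_, h, _⟩
    by_contra h1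
    exact h ⟨rfl, h1⟩
  · intro h
    exact ⟨by simp, fun h' => h'.2 h, by simp [nonadj]⟩

open Classical in
/-- the exponent attached to a set `S` of control vertices -/
noncomputable def ex (i t : ℕ) (X : Finset Vtx) (α : Finset ℕ) (S : Finset Vtx) : ℕ :=
  ((Bi i t α ∪ X).filter (fun b => ∀ u ∈ S, HG.Adj u b)).card

/-- the neighbourhood of a selector vertex -/
def Yset (i t : ℕ) (X : Finset Vtx) (α : Finset ℕ) : Finset Vtx := Ui i t ∪ (Bi i t α ∪ X)

/-- `X` consists of non-control vertices outside the block `i` -/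
def Outside (i : ℕ) (X : Finset Vtx) : Prop := ∀ v ∈ X, isB v ∧ blk v ≠ some i

lemma ccOn_Yset (i t : ℕ) (X : Finset Vtx) (hX : Outside i X) (α : Finset ℕ) :
    ccOn HG (Yset i t X α) = ∑ S ∈ cliquesOn HG (Ui i t), 2 ^ ex i t X α S := by
  unfold Yset ex
  rw [ccOn_union]
  · rw [Finset.disjoint_left]
    intro v hv hv'
    rw [mem_Ui] at hv
    obtain ⟨l, a, _, rfl⟩ := hv
    rw [mem_union] at hv'
    rcases hv' with h | h
    · have := isB_of_mem_Bi h
      simp [isB] at this
    · have := (hX _ h).1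
      simp [isB] at this
  · apply isClique_of_isB
    intro b hb
    rw [mem_union] at hb
    rcases hb with h | h
    · exact isB_of_mem_Bi h
    · exact (hX _ h).1

lemma ex_ge (i t : ℕ) (X : Finset Vtx) (hX : Outside i X) (α : Finset ℕ) (x : ℕ)
    (hx : x < 2 ^ t) (S : Finset Vtx) (hS : S ⊆ Sx i t x) :
    X.card + 2 * x ≤ ex i t X α S ∧ (S ≠ Sx i t x → X.card + 2 * x + 2 ≤ ex i t X α S) := by
  classical
  -- the good base vertices
  set P : Finset Vtx := basePart i ((range t).filter (fun l => Nat.testBit x l = true)) with hP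
  have hPcard : P.card = 2 * x := by
    rw [hP, card_basePart, ← Finset.mul_sum, testBit_sum, Nat.mod_eq_of_lt hx]
  have hXP : Disjoint X P := by
    rw [Finset.disjoint_left]
    intro v hv hv'
    rw [hP, mem_basePart] at hv'
    obtain ⟨l, k, _, _, rfl⟩ := hv'
    exact (hX _ hv).2 rfl
  have hXsub : X ⊆ (Bi i t α ∪ X).filter (fun b => ∀ u ∈ S, HG.Adj u b) := by
    intro v hv
    rw [mem_filter, mem_union]
    refine ⟨Or.inr hv, ?_⟩
    intro u hu
    obtain ⟨l, _, rfl⟩ := mem_Sx.1 (hS hu)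
    exact adj_ctl_of_blk_ne (hX v hv).1 (hX v hv).2
  have hPsub : P ⊆ (Bi i t α ∪ X).filter (fun b => ∀ u ∈ S, HG.Adj u b) := by
    intro v hv
    rw [hP, mem_basePart] at hv
    obtain ⟨l, k, hl, hk, rfl⟩ := hv
    rw [mem_filter, mem_range] at hl
    rw [mem_filter, mem_union]
    refine ⟨Or.inl ?_, ?_⟩
    · unfold Bi
      rw [mem_union, mem_union, mem_basePart]
      exact Or.inl (Or.inl ⟨l, k, mem_range.2 hl.1, hk, rfl⟩)
    · intro u hu
      obtain ⟨m, _, rfl⟩ := mem_Sx.1 (hS hu)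
      rw [adj_ctl_base]
      rintro ⟨rfl, h⟩
      rw [hl.2] at h
      exact Bool.noConfusion h
  constructor
  · have h1 : (X ∪ P).card ≤ ex i t X α S := card_le_card (union_subset hXsub hPsub)
    rw [card_union_of_disjoint hXP, hPcard] at h1
    exact h1
  · intro hne
    have : ∃ v ∈ Sx i t x, v ∉ S := by
      by_contra hcon
      push Not at hcon
      exact hne (Finset.Subset.antisymm hS hcon)
    obtain ⟨v, hv, hvS⟩ := this
    obtain ⟨l, hl, rfl⟩ := mem_Sx.1 hv
    have hQcard : (penPart i {l}).card = 2 := by rw [card_penPart]; simp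
    have hQsub : penPart i {l} ⊆ (Bi i t α ∪ X).filter (fun b => ∀ u ∈ S, HG.Adj u b) := by
      intro v hv'
      rw [mem_penPart] at hv'
      obtain ⟨l', k, hl', rfl⟩ := hv'
      rw [mem_singleton] at hl'
      subst hl'
      rw [mem_filter, mem_union]
      refine ⟨Or.inl ?_, ?_⟩
      · unfold Bi
        rw [mem_union, mem_union, mem_penPart]
        exact Or.inl (Or.inr ⟨l', k, mem_range.2 hl, rfl⟩)
      · intro u hu
        obtain ⟨m, _, rfl⟩ := mem_Sx.1 (hS hu)
        rw [adj_ctl_pen]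
        rintro rfl
        exact hvS hu
    have hd : Disjoint (X ∪ P) (penPart i {l}) := by
      rw [Finset.disjoint_left]
      intro v hv hv'
      rw [mem_penPart] at hv'
      obtain ⟨l', k, _, rfl⟩ := hv'
      rw [mem_union] at hv
      rcases hv with hv | hv
      · exact (hX _ hv).2 rfl
      · rw [hP, mem_basePart] at hv
        obtain ⟨_, _, _, _, h⟩ := hv
        simp at h
    have h1 : ((X ∪ P) ∪ penPart i {l}).card ≤ ex i t X α S :=
      card_le_card (union_subset (union_subset hXsub hPsub) hQsub)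
    rw [card_union_of_disjoint hd, card_union_of_disjoint hXP, hPcard, hQcard] at h1
    exact h1

lemma eq_of_testBit_eq_of_lt {t x y : ℕ} (hx : x < 2 ^ t) (hy : y < 2 ^ t)
    (h : ∀ l < t, Nat.testBit y l = Nat.testBit x l) : y = x := by
  rw [← Nat.mod_eq_of_lt hx, ← Nat.mod_eq_of_lt hy, ← testBit_sum, ← testBit_sum]
  refine Finset.sum_congr ?_ (fun _ _ => rfl)
  ext l
  simp only [mem_filter, mem_range]
  constructor
  · rintro ⟨h1, h2⟩; exact ⟨h1, by rw [← h l h1]; exact h2⟩
  · rintro ⟨h1, h2⟩; exact ⟨h1, by rw [h l h1]; exact h2⟩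

lemma ex_full (i t : ℕ) (X : Finset Vtx) (hX : Outside i X) (α : Finset ℕ)
    (hα : ∀ y ∈ α, y < 2 ^ t) (x : ℕ) (hx : x < 2 ^ t) :
    ex i t X α (Sx i t x) = X.card + 2 * x + (if x ∈ α then 1 else 0) := by
  classical
  set P : Finset Vtx := basePart i ((range t).filter (fun l => Nat.testBit x l = true)) with hP
  have hPcard : P.card = 2 * x := by
    rw [hP, card_basePart, ← Finset.mul_sum, testBit_sum, Nat.mod_eq_of_lt hx]
  have hXP : Disjoint X P := by
    rw [Finset.disjoint_left]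
    intro v hv hv'
    rw [hP, mem_basePart] at hv'
    obtain ⟨l, k, _, _, rfl⟩ := hv'
    exact (hX _ hv).2 rfl
  set Q : Finset Vtx := ptPart i (α.filter (fun y => y = x)) with hQ
  have hQcard : Q.card = if x ∈ α then 1 else 0 := by
    rw [hQ, card_ptPart, Finset.filter_eq']
    split_ifs <;> simp
  have hd : Disjoint (X ∪ P) Q := by
    rw [Finset.disjoint_left]
    intro v hv hv'
    rw [hQ, mem_ptPart] at hv'
    obtain ⟨y, _, rfl⟩ := hv'
    rw [mem_union] at hv
    rcases hv with hv | hv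
    · exact (hX _ hv).2 rfl
    · rw [hP, mem_basePart] at hv
      obtain ⟨_, _, _, _, h⟩ := hv
      simp at h
  have heq : (Bi i t α ∪ X).filter (fun b => ∀ u ∈ Sx i t x, HG.Adj u b) = (X ∪ P) ∪ Q := by
    ext v
    rw [mem_filter]
    constructor
    · rintro ⟨hv, hadj⟩
      rw [mem_union] at hv
      rcases hv with hv | hv
      · unfold Bi at hv
        rw [mem_union, mem_union] at hv
        rcases hv with (hv | hv) | hv
        · rw [mem_basePart] at hv
          obtain ⟨l, k, hl, hk, rfl⟩ := hv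
          rw [mem_range] at hl
          have h1 := hadj (Vtx.ctl i l (Nat.testBit x l)) (mem_Sx.2 ⟨l, hl, rfl⟩)
          rw [adj_ctl_base] at h1
          have h2 : Nat.testBit x l = true := by
            by_contra h3
            exact h1 ⟨rfl, by simpa using h3⟩
          rw [mem_union, mem_union]
          refine Or.inl (Or.inr ?_)
          rw [hP, mem_basePart]
          exact ⟨l, k, mem_filter.2 ⟨mem_range.2 hl, h2⟩, hk, rfl⟩
        · rw [mem_penPart] at hv
          obtain ⟨l, k, hl, rfl⟩ := hv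
          rw [mem_range] at hl
          have h1 := hadj (Vtx.ctl i l (Nat.testBit x l)) (mem_Sx.2 ⟨l, hl, rfl⟩)
          rw [adj_ctl_pen] at h1
          exact absurd rfl h1
        · rw [mem_ptPart] at hv
          obtain ⟨y, hy, rfl⟩ := hv
          have h1 : y = x := by
            apply eq_of_testBit_eq_of_lt hx (hα y hy)
            intro l hl
            have h1 := hadj (Vtx.ctl i l (Nat.testBit x l)) (mem_Sx.2 ⟨l, hl, rfl⟩)
            rw [adj_ctl_pt] at h1
            exact h1
          rw [mem_union]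
          refine Or.inr ?_
          rw [hQ, mem_ptPart]
          exact ⟨y, mem_filter.2 ⟨hy, h1⟩, rfl⟩
      · rw [mem_union, mem_union]
        exact Or.inl (Or.inl hv)
    · intro hv
      rw [mem_union, mem_union] at hv
      rcases hv with (hv | hv) | hv
      · refine ⟨mem_union_right _ hv, ?_⟩
        intro u hu
        obtain ⟨l, _, rfl⟩ := mem_Sx.1 hu
        exact adj_ctl_of_blk_ne (hX v hv).1 (hX v hv).2
      · rw [hP, mem_basePart] at hv
        obtain ⟨l, k, hl, hk, rfl⟩ := hv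
        rw [mem_filter, mem_range] at hl
        refine ⟨mem_union_left _ ?_, ?_⟩
        · unfold Bi
          rw [mem_union, mem_union, mem_basePart]
          exact Or.inl (Or.inl ⟨l, k, mem_range.2 hl.1, hk, rfl⟩)
        · intro u hu
          obtain ⟨m, _, rfl⟩ := mem_Sx.1 hu
          rw [adj_ctl_base]
          rintro ⟨rfl, h⟩
          rw [hl.2] at h
          exact Bool.noConfusion h
      · rw [hQ, mem_ptPart] at hv
        obtain ⟨y, hy, rfl⟩ := hv
        rw [mem_filter] at hy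
        obtain ⟨hy, rfl⟩ := hy
        refine ⟨mem_union_left _ ?_, ?_⟩
        · unfold Bi
          rw [mem_union, mem_ptPart]
          exact Or.inr ⟨y, hy, rfl⟩
        · intro u hu
          obtain ⟨m, _, rfl⟩ := mem_Sx.1 hu
          rw [adj_ctl_pt]
  unfold ex
  rw [heq, card_union_of_disjoint hd, card_union_of_disjoint hXP, hPcard, hQcard]

lemma ex_diff (i t : ℕ) (X : Finset Vtx) (α β : Finset ℕ) (S : Finset Vtx)
    (hS : S ⊆ Ui i t) (h : ex i t X α S ≠ ex i t X β S) :
    ∃ x, ((x ∈ α ∧ x ∉ β) ∨ (x ∈ β ∧ x ∉ α)) ∧ S ⊆ Sx i t x := by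
  classical
  by_contra hcon
  push Not at hcon
  apply h
  unfold ex
  congr 1
  have key : ∀ α β : Finset ℕ, (∀ x, ((x ∈ α ∧ x ∉ β) ∨ (x ∈ β ∧ x ∉ α)) → ¬ S ⊆ Sx i t x) →
      (Bi i t α ∪ X).filter (fun b => ∀ u ∈ S, HG.Adj u b) ⊆
      (Bi i t β ∪ X).filter (fun b => ∀ u ∈ S, HG.Adj u b) := by
    intro α β hcon v hv
    rw [mem_filter] at hv ⊢
    refine ⟨?_, hv.2⟩
    rw [mem_union] at hv ⊢
    rcases hv.1 with h1 | h1
    · left
      unfold Bi at h1 ⊢
      rw [mem_union] at h1 ⊢
      rcases h1 with h1 | h1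
      · exact Or.inl h1
      · right
        rw [mem_ptPart] at h1 ⊢
        obtain ⟨x, hx, rfl⟩ := h1
        refine ⟨x, ?_, rfl⟩
        by_contra hxb
        refine hcon x (Or.inl ⟨hx, hxb⟩) ?_
        intro u hu
        obtain ⟨l, a, hl, rfl⟩ := mem_Ui.1 (hS hu)
        have := hv.2 _ hu
        rw [adj_ctl_pt] at this
        rw [mem_Sx]
        exact ⟨l, hl, by rw [this]⟩
    · exact Or.inr h1
  apply Finset.Subset.antisymm
  · exact key α β hcon
  · exact key β α (fun x hx => hcon x hx.symm)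

/-- The triangular property of the gadget. -/
lemma gadget (i t : ℕ) (X : Finset Vtx) (hX : Outside i X) (α β : Finset ℕ)
    (hα : ∀ y ∈ α, y < 2 ^ t) (hβ : ∀ y ∈ β, y < 2 ^ t) (x : ℕ) (hxα : x ∈ α) (hxβ : x ∉ β)
    (hlt : ∀ y < x, y ∈ α ↔ y ∈ β) :
    (2 ^ (X.card + 2 * x + 1) : ℤ) ∣ (ccOn HG (Yset i t X α) : ℤ) - (ccOn HG (Yset i t X β) : ℤ)
      - 2 ^ (X.card + 2 * x) := by
  classical
  have hx : x < 2 ^ t := hα x hxα
  have hSx : Sx i t x ∈ cliquesOn HG (Ui i t) := by
    rw [mem_cliquesOn]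
    constructor
    · intro u hu
      obtain ⟨l, hl, rfl⟩ := mem_Sx.1 hu
      exact mem_Ui.2 ⟨l, _, hl, rfl⟩
    · intro u hu v hv huv
      obtain ⟨l, hl, rfl⟩ := mem_Sx.1 hu
      obtain ⟨m, hm, rfl⟩ := mem_Sx.1 hv
      refine ⟨huv, ?_, ?_⟩
      · rintro ⟨_, rfl⟩
        exact huv rfl
      · rintro ⟨_, rfl⟩
        exact huv rfl
  rw [ccOn_Yset i t X hX, ccOn_Yset i t X hX]
  push_cast
  rw [← Finset.sum_sub_distrib, ← Finset.add_sum_erase _ _ hSx]
  have h0 : (2 : ℤ) ^ ex i t X α (Sx i t x) - 2 ^ ex i t X β (Sx i t x)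
      = 2 ^ (X.card + 2 * x) := by
    rw [ex_full i t X hX α hα x hx, ex_full i t X hX β hβ x hx, if_pos hxα, if_neg hxβ]
    ring
  rw [h0, add_sub_cancel_left]
  refine Finset.dvd_sum ?_
  intro S hS
  rw [mem_erase, mem_cliquesOn] at hS
  by_cases he : ex i t X α S = ex i t X β S
  · rw [he]; simp
  · obtain ⟨y, hy, hSy⟩ := ex_diff i t X α β S hS.2.1 he
    have hylt : y < 2 ^ t := by
      rcases hy with h | h
      · exact hα y h.1
      · exact hβ y h.1
    have hxy : x ≤ y := by
      by_contra hcon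
      have := hlt y (by omega)
      tauto
    have hge : X.card + 2 * x + 2 ≤ ex i t X α S ∧ X.card + 2 * x + 2 ≤ ex i t X β S := by
      have h1 := ex_ge i t X hX α y hylt S hSy
      have h2 := ex_ge i t X hX β y hylt S hSy
      by_cases hSS : S = Sx i t y
      · have hne : x ≠ y := by
          rintro rfl
          exact hS.1 hSS
        have h1 := h1.1
        have h2 := h2.1
        constructor <;> omega
      · have h1 := h1.2 hSS
        have h2 := h2.2 hSS
        constructor <;> omega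
    apply dvd_sub
    · exact pow_dvd_pow 2 (by omega)
    · exact pow_dvd_pow 2 (by omega)

end Pool.Agent.Helper42.CliqueCounts
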