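import Mathlib
import Pool.Agent.Helper42.CliqueCounts.Gadget

set_option autoImplicit false

open Finset

namespace Pool.Agent.Helper42.CliqueCounts

/-- all noncontrol vertices -/
def VB (J : ℕ) (t : ℕ → ℕ) (d : ℕ) : Finset Vtx :=
  (range J).biUnion (fun i => Bi i (t i) (range (2 ^ t i))) ∪ (range d).image Vtx.free

/-- all control vertices -/
def VU (J : ℕ) (t : ℕ → ℕ) : Finset Vtx := (range J).biUnion (fun i => Ui i (t i))

/-- size of a block -/
def bs (t : ℕ) : ℕ := 2 * (2 ^ t - 1) + 2 * t + 2 ^ t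

lemma card_Bi (i t : ℕ) (α : Finset ℕ) :
    (Bi i t α).card = 2 * (2 ^ t - 1) + 2 * t + α.card := by
  unfold Bi
  rw [card_union_of_disjoint, card_union_of_disjoint, card_basePart, card_penPart, card_ptPart,
    card_range]
  · congr 2
    rw [← Finset.mul_sum, Nat.geomSum_eq (le_refl 2)]
    simp
  · rw [Finset.disjoint_left]
    intro v hv hv'
    rw [mem_basePart] at hv
    rw [mem_penPart] at hv'
    obtain ⟨_, _, _, _, rfl⟩ := hv
    obtain ⟨_, _, _, h⟩ := hv'
    simp at h
  · rw [Finset.disjoint_left]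
    intro v hv hv'
    rw [mem_union, mem_basePart, mem_penPart] at hv
    rw [mem_ptPart] at hv'
    obtain ⟨_, _, rfl⟩ := hv'
    rcases hv with ⟨_, _, _, _, h⟩ | ⟨_, _, _, h⟩ <;> simp at h

lemma card_Ui (i t : ℕ) : (Ui i t).card = 2 * t := by
  unfold Ui
  rw [card_image_of_injective, card_product]
  · simp [mul_comm]
  · rintro ⟨a, b⟩ ⟨c, d⟩ h
    simpa using h

lemma blk_of_mem_Ui {i t : ℕ} {v : Vtx} (h : v ∈ Ui i t) : blk v = some i := by
  obtain ⟨l, a, _, rfl⟩ := mem_Ui.1 h
  rfl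

lemma card_VU (J : ℕ) (t : ℕ → ℕ) : (VU J t).card = ∑ i ∈ range J, 2 * t i := by
  unfold VU
  rw [card_biUnion]
  · exact sum_congr rfl (fun i _ => card_Ui i (t i))
  · intro i _ j _ hij
    rw [Function.onFun, Finset.disjoint_left]
    intro v hv hv'
    have h1 := blk_of_mem_Ui hv
    have h2 := blk_of_mem_Ui hv'
    rw [h1] at h2
    exact hij (by simpa using h2)

lemma card_VB (J : ℕ) (t : ℕ → ℕ) (d : ℕ) :
    (VB J t d).card = ∑ i ∈ range J, bs (t i) + d := by
  unfold VB
  rw [card_union_of_disjoint, card_biUnion, card_image_of_injective, card_range]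
  · congr 1
    exact sum_congr rfl (fun i _ => by rw [card_Bi, card_range]; rfl)
  · intro a b h
    simpa using h
  · intro i _ j _ hij
    rw [Function.onFun, Finset.disjoint_left]
    intro v hv hv'
    have h1 := blk_of_mem_Bi hv
    have h2 := blk_of_mem_Bi hv'
    rw [h1] at h2
    exact hij (by simpa using h2)
  · rw [Finset.disjoint_left]
    intro v hv hv'
    rw [mem_image] at hv'
    obtain ⟨k, _, rfl⟩ := hv'
    rw [mem_biUnion] at hv
    obtain ⟨i, _, h⟩ := hv
    have := blk_of_mem_Bi h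
    simp [blk] at this

lemma isB_of_mem_VB {J : ℕ} {t : ℕ → ℕ} {d : ℕ} {v : Vtx} (h : v ∈ VB J t d) : isB v := by
  unfold VB at h
  rw [mem_union, mem_biUnion, mem_image] at h
  rcases h with ⟨i, _, h⟩ | ⟨k, _, rfl⟩
  · exact isB_of_mem_Bi h
  · simp [isB]

lemma not_isB_of_mem_VU {J : ℕ} {t : ℕ → ℕ} {v : Vtx} (h : v ∈ VU J t) : ¬ isB v := by
  unfold VU at h
  rw [mem_biUnion] at h
  obtain ⟨i, _, h⟩ := h
  obtain ⟨l, a, _, rfl⟩ := mem_Ui.1 h
  simp [isB]

lemma exists_outside (J : ℕ) (t : ℕ → ℕ) (d : ℕ) (i : ℕ) (hi : i < J) (f : ℕ)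
    (hf : f + bs (t i) ≤ (VB J t d).card) :
    ∃ X : Finset Vtx, X ⊆ VB J t d ∧ X.card = f ∧ Outside i X := by
  classical
  have h1 : Bi i (t i) (range (2 ^ t i)) ⊆ VB J t d := by
    intro v hv
    unfold VB
    rw [mem_union, mem_biUnion]
    exact Or.inl ⟨i, mem_range.2 hi, hv⟩
  have h2 : (VB J t d \ Bi i (t i) (range (2 ^ t i))).card = (VB J t d).card - bs (t i) := by
    rw [card_sdiff_of_subset h1, card_Bi, card_range]; rfl
  obtain ⟨X, hX, hXc⟩ := Finset.exists_subset_card_eq (s := VB J t d \ Bi i (t i) (range (2 ^ t i)))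
    (n := f) (by rw [h2]; omega)
  refine ⟨X, hX.trans sdiff_subset, hXc, ?_⟩
  intro v hv
  have h3 := hX hv
  rw [mem_sdiff] at h3
  refine ⟨isB_of_mem_VB h3.1, ?_⟩
  intro hb
  apply h3.2
  have h4 := h3.1
  unfold VB at h4
  rw [mem_union, mem_biUnion, mem_image] at h4
  rcases h4 with ⟨j, _, h5⟩ | ⟨k, _, rfl⟩
  · have := blk_of_mem_Bi h5
    rw [hb] at this
    have hij : i = j := by simpa using this
    rw [hij]; exact h5
  · simp [blk] at hb

/-- Divisibility coming from the gadget for two sets of points. -/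
lemma gadget_dvd (i t : ℕ) (X : Finset Vtx) (hX : Outside i X) (α β : Finset ℕ)
    (hα : ∀ y ∈ α, y < 2 ^ t) (hβ : ∀ y ∈ β, y < 2 ^ t) (P : ℕ)
    (h : ∀ y, ((y ∈ α ∧ y ∉ β) ∨ (y ∈ β ∧ y ∉ α)) → P ≤ X.card + 2 * y) :
    (2 ^ P : ℤ) ∣ (ccOn HG (Yset i t X α) : ℤ) - (ccOn HG (Yset i t X β) : ℤ) := by
  classical
  by_cases hαβ : α = β
  · rw [hαβ]; simp
  · have hne : (symmDiff α β).Nonempty := by
      rw [Finset.nonempty_iff_ne_empty]
      intro h0
      exact hαβ (symmDiff_eq_bot.1 h0)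
    set x := (symmDiff α β).min' hne with hx
    have hxm : x ∈ symmDiff α β := Finset.min'_mem _ _
    have hlt : ∀ y < x, y ∈ α ↔ y ∈ β := by
      intro y hy
      by_contra hcon
      have : y ∈ symmDiff α β := by
        rw [mem_symmDiff]; tauto
      have := Finset.min'_le _ _ this
      omega
    rw [mem_symmDiff] at hxm
    have hP := h x hxm
    have hd : (2 ^ P : ℤ) ∣ 2 ^ (X.card + 2 * x) := pow_dvd_pow 2 hP
    have hd' : (2 ^ P : ℤ) ∣ 2 ^ (X.card + 2 * x + 1) := pow_dvd_pow 2 (by omega)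
    rcases hxm with ⟨h1, h2⟩ | ⟨h1, h2⟩
    · have := gadget i t X hX α β hα hβ x h1 h2 hlt
      have h3 := dvd_add (hd'.trans this) hd
      simpa using h3
    · have := gadget i t X hX β α hβ hα x h1 h2 (fun y hy => (hlt y hy).symm)
      have h3 := dvd_add (hd'.trans this) hd
      rw [← dvd_neg]
      simpa using h3

/-- The assembly: all residues modulo `2 ^ K` are realised. -/
theorem assembly (J : ℕ) (t : ℕ → ℕ) (d : ℕ) (W : Type) [Fintype W] (sc : W → ℕ)
    (hsc : ∀ w, sc w < J) (f : W → ℕ)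
    (hf : ∀ w, f w + bs (t (sc w)) ≤ (VB J t d).card) (K : ℕ)
    (hcov : ∀ p < K, ∃ w x, x < 2 ^ t (sc w) ∧ p = f w + 2 * x) (τ : ℕ) :
    ∃ T, NB ((VB J t d).card + (VU J t).card + Fintype.card W) (VB J t d).card T ∧
      T ≡ τ [MOD 2 ^ K] := by
  classical
  choose X hXsub hXcard hXout using fun w => exists_outside J t d (sc w) (hsc w) (f w) (hf w)
  choose ω x hx hpx using hcov
  -- the point sets
  let al : Finset ℕ → W → Finset ℕ := fun ε w =>
    (range (2 ^ t (sc w))).filter (fun y => f w + 2 * y ∈ ε ∧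
      ∃ h : f w + 2 * y < K, ω (f w + 2 * y) h = w)
  have hal : ∀ ε w, ∀ y ∈ al ε w, y < 2 ^ t (sc w) := by
    intro ε w y hy
    exact mem_range.1 (mem_filter.1 hy).1
  let TT : Finset ℕ → ℕ := fun ε => ccOn HG (VU J t ∪ VB J t d) +
    ∑ w, ccOn HG (Yset (sc w) (t (sc w)) (X w) (al ε w))
  have hNB : ∀ ε, NB ((VB J t d).card + (VU J t).card + Fintype.card W) (VB J t d).card
      (TT ε) := by
    intro ε
    refine ⟨Vtx ⊕ W, addGraph HG (fun w => Yset (sc w) (t (sc w)) (X w) (al ε w)),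
      (VU J t ∪ VB J t d).disjSum univ, (VB J t d).map Function.Embedding.inl, ?_, ?_, ?_, ?_, ?_⟩
    · rw [card_disjSum, card_union_of_disjoint, card_univ]
      · ring
      · rw [Finset.disjoint_left]
        intro v hv hv'
        exact not_isB_of_mem_VU hv (isB_of_mem_VB hv')
    · intro y hy
      simp only [mem_map, Function.Embedding.inl_apply] at hy
      obtain ⟨a, ha, rfl⟩ := hy
      rw [Finset.inl_mem_disjSum]
      exact mem_union_right _ ha
    · rw [card_map]
    · rw [isClique_addGraph_map]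
      exact isClique_of_isB _ (fun b hb => isB_of_mem_VB hb)
    · rw [ccOn_addGraph]
      intro w v hv
      unfold Yset at hv
      rw [mem_union, mem_union] at hv
      rw [mem_union]
      rcases hv with h | h | h
      · left
        unfold VU
        rw [mem_biUnion]
        exact ⟨sc w, mem_range.2 (hsc w), h⟩
      · right
        unfold VB
        rw [mem_union, mem_biUnion]
        refine Or.inl ⟨sc w, mem_range.2 (hsc w), ?_⟩
        unfold Bi at h ⊢
        rw [mem_union] at h ⊢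
        rcases h with h | h
        · exact Or.inl h
        · right
          rw [mem_ptPart] at h ⊢
          obtain ⟨y, hy, rfl⟩ := h
          exact ⟨y, mem_range.2 (hal ε w y hy), rfl⟩
      · right
        exact hXsub w h
  -- injectivity
  have hinj : ∀ ε δ : Finset ℕ, (∀ p ∈ ε, p < K) → (∀ p ∈ δ, p < K) → ∀ p0, p0 ∈ ε → p0 ∉ δ →
      (∀ p < p0, p ∈ ε ↔ p ∈ δ) → ¬ ((2 ^ K : ℤ) ∣ (TT ε : ℤ) - TT δ) := by
    intro ε δ hε hδ p0 hpε hpδ hlt hdvd
    have hp0K : p0 < K := hε p0 hpε
    set w0 := ω p0 hp0K with hw0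
    set x0 := x p0 hp0K with hx0
    have hpos : p0 = f w0 + 2 * x0 := hpx p0 hp0K
    have hd1 : (2 ^ (p0 + 1) : ℤ) ∣ (TT ε : ℤ) - TT δ - 2 ^ p0 := by
      have hexp : (TT ε : ℤ) - TT δ - 2 ^ p0 =
          ((ccOn HG (Yset (sc w0) (t (sc w0)) (X w0) (al ε w0)) : ℤ) -
            (ccOn HG (Yset (sc w0) (t (sc w0)) (X w0) (al δ w0)) : ℤ) - 2 ^ p0) +
          ∑ w ∈ univ.erase w0, ((ccOn HG (Yset (sc w) (t (sc w)) (X w) (al ε w)) : ℤ) -
            (ccOn HG (Yset (sc w) (t (sc w)) (X w) (al δ w)) : ℤ)) := by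
        have h1 : (TT ε : ℤ) - TT δ = ∑ w, ((ccOn HG (Yset (sc w) (t (sc w)) (X w) (al ε w)) : ℤ) -
            (ccOn HG (Yset (sc w) (t (sc w)) (X w) (al δ w)) : ℤ)) := by
          simp only [TT]
          push_cast
          rw [Finset.sum_sub_distrib]
          ring
        rw [h1, ← Finset.add_sum_erase univ _ (mem_univ w0)]
        ring
      rw [hexp]
      apply dvd_add
      · have hmem : ∀ ε' : Finset ℕ, x0 ∈ al ε' w0 ↔ p0 ∈ ε' := by
          intro ε'
          simp only [al, mem_filter, mem_range]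
          constructor
          · rintro ⟨_, h, _⟩
            rw [hpos]; exact h
          · intro h
            refine ⟨hx p0 hp0K, ?_, ?_⟩
            · rw [← hpos]; exact h
            · refine ⟨by rw [← hpos]; exact hp0K, ?_⟩
              have : ∀ q (hq : q < K), q = p0 → ω q hq = w0 := by
                rintro q hq rfl
                rfl
              exact this _ _ hpos.symm
        have hg := gadget (sc w0) (t (sc w0)) (X w0) (hXout w0) (al ε w0) (al δ w0)
          (hal ε w0) (hal δ w0) x0 ((hmem ε).2 hpε) (fun h => hpδ ((hmem δ).1 h)) (by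
            intro y hy
            simp only [al, mem_filter, mem_range]
            have : f w0 + 2 * y ∈ ε ↔ f w0 + 2 * y ∈ δ := hlt _ (by omega)
            rw [this])
        rw [hXcard w0, ← hpos] at hg
        exact hg
      · refine Finset.dvd_sum ?_
        intro w hw
        rw [mem_erase] at hw
        refine gadget_dvd (sc w) (t (sc w)) (X w) (hXout w) (al ε w) (al δ w)
          (hal ε w) (hal δ w) (p0 + 1) ?_
        intro y hy
        rw [hXcard w]
        have hmem : ∀ ε' : Finset ℕ, y ∈ al ε' w → f w + 2 * y ∈ ε' ∧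
            ∃ h : f w + 2 * y < K, ω (f w + 2 * y) h = w := by
          intro ε' h
          exact (mem_filter.1 h).2
        have hmem2 : ∀ ε' : Finset ℕ, (∃ h : f w + 2 * y < K, ω (f w + 2 * y) h = w) →
            y < 2 ^ t (sc w) → f w + 2 * y ∈ ε' → y ∈ al ε' w := by
          intro ε' h1 h2 h3
          exact mem_filter.2 ⟨mem_range.2 h2, h3, h1⟩
        have hne : f w + 2 * y ≠ p0 := by
          intro h
          have h2 : ∃ h : f w + 2 * y < K, ω (f w + 2 * y) h = w := by
            rcases hy with h1 | h1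
            · exact (hmem ε h1.1).2
            · exact (hmem δ h1.1).2
          obtain ⟨h3, h4⟩ := h2
          apply hw.1
          have : ∀ q (hq : q < K), q = p0 → ω q hq = w0 := by
            rintro q hq rfl
            rfl
          rw [← h4]
          exact this _ _ h
        have hge : ¬ f w + 2 * y < p0 := by
          intro h
          have hiff := hlt _ h
          rcases hy with h1 | h1
          · have h2 := hmem ε h1.1
            exact h1.2 (hmem2 δ h2.2 (hal ε w y h1.1) (hiff.1 h2.1))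
          · have h2 := hmem δ h1.1
            exact h1.2 (hmem2 ε h2.2 (hal δ w y h1.1) (hiff.2 h2.1))
        omega
    have hd2 : (2 ^ (p0 + 1) : ℤ) ∣ (TT ε : ℤ) - TT δ :=
      (pow_dvd_pow 2 (by omega)).trans hdvd
    have hd3 : (2 ^ (p0 + 1) : ℤ) ∣ 2 ^ p0 := by
      have := dvd_sub hd2 hd1
      simpa using this
    have h4 : (2 ^ (p0 + 1) : ℤ) ≤ 2 ^ p0 := Int.le_of_dvd (by positivity) hd3
    have h5 : (2 : ℤ) ^ p0 < 2 ^ (p0 + 1) := by
      rw [pow_succ]
      have : (0 : ℤ) < 2 ^ p0 := by positivity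
      linarith
    omega
  -- surjectivity by counting
  let Φ : Finset (Fin K) → ZMod (2 ^ K) := fun ε => ((TT (ε.map Fin.valEmbedding) : ℕ) : ZMod (2 ^ K))
  have hΦinj : Function.Injective Φ := by
    intro ε δ h
    by_contra hne
    have hne2 : (symmDiff ε δ).Nonempty := by
      rw [Finset.nonempty_iff_ne_empty]
      intro h0
      exact hne (symmDiff_eq_bot.1 h0)
    set p := (symmDiff ε δ).min' hne2 with hp
    have hpm : p ∈ symmDiff ε δ := Finset.min'_mem _ _
    have hlt : ∀ q : Fin K, q < p → (q ∈ ε ↔ q ∈ δ) := by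
      intro q hq
      by_contra hcon
      have : q ∈ symmDiff ε δ := by
        rw [mem_symmDiff]; tauto
      have := Finset.min'_le _ _ this
      exact absurd hq (not_lt.2 this)
    have hmem : ∀ (ε : Finset (Fin K)) (q : ℕ) (hq : q < K),
        q ∈ ε.map Fin.valEmbedding ↔ (⟨q, hq⟩ : Fin K) ∈ ε := by
      intro ε q hq
      simp only [mem_map, Fin.valEmbedding_apply]
      constructor
      · rintro ⟨a, ha, rfl⟩
        exact ha
      · intro h
        exact ⟨⟨q, hq⟩, h, rfl⟩
    have hbd : ∀ (ε : Finset (Fin K)), ∀ q ∈ ε.map Fin.valEmbedding, q < K := by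
      intro ε q hq
      simp only [mem_map, Fin.valEmbedding_apply] at hq
      obtain ⟨a, _, rfl⟩ := hq
      exact a.2
    have hlt' : ∀ q < (p : ℕ), q ∈ ε.map Fin.valEmbedding ↔ q ∈ δ.map Fin.valEmbedding := by
      intro q hq
      rw [hmem ε q (by omega), hmem δ q (by omega)]
      exact hlt _ (by exact_mod_cast hq)
    have hdv : (2 ^ K : ℤ) ∣ (TT (ε.map Fin.valEmbedding) : ℤ) - TT (δ.map Fin.valEmbedding) := by
      have h1 : ((TT (δ.map Fin.valEmbedding) : ℕ) : ZMod (2 ^ K)) =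
        ((TT (ε.map Fin.valEmbedding) : ℕ) : ZMod (2 ^ K)) := h.symm
      have := Nat.modEq_iff_dvd.1 ((ZMod.natCast_eq_natCast_iff _ _ _).1 h1)
      exact_mod_cast this
    rw [mem_symmDiff] at hpm
    rcases hpm with ⟨h1, h2⟩ | ⟨h1, h2⟩
    · exact hinj _ _ (hbd ε) (hbd δ) p ((hmem ε p p.2).2 h1) (fun h => h2 ((hmem δ p p.2).1 h))
        hlt' hdv
    · refine hinj _ _ (hbd δ) (hbd ε) p ((hmem δ p p.2).2 h1) (fun h => h2 ((hmem ε p p.2).1 h))
        (fun q hq => (hlt' q hq).symm) ?_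
      rw [← dvd_neg]
      simpa using hdv
  have : NeZero (2 ^ K) := ⟨by positivity⟩
  have hbij : Function.Bijective Φ := by
    rw [Fintype.bijective_iff_injective_and_card]
    refine ⟨hΦinj, ?_⟩
    rw [Fintype.card_finset, Fintype.card_fin, ZMod.card]
  obtain ⟨ε, hε⟩ := hbij.2 ((τ : ℕ) : ZMod (2 ^ K))
  exact ⟨TT (ε.map Fin.valEmbedding), hNB _, (ZMod.natCast_eq_natCast_iff _ _ _).1 hε⟩

end Pool.Agent.Helper42.CliqueCounts
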