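import Mathlib
import Pool.Agent.Helper42.CliqueCounts.Assembly

set_option autoImplicit false

open Finset

namespace Pool.Agent.Helper42.CliqueCounts

lemma bs_le (t : ℕ) (ht : 1 ≤ t) : bs t + 1 ≤ 4 * 2 ^ t := by
  have h : ∀ t : ℕ, 2 * (t + 1) ≤ 2 ^ (t + 1) + 1 := by
    intro t
    induction t with
    | zero => norm_num
    | succ t ih =>
      have : 1 ≤ 2 ^ t := Nat.one_le_two_pow
      rw [pow_succ] at ih ⊢
      rw [pow_succ]
      omega
  obtain ⟨s, rfl⟩ : ∃ s, t = s + 1 := ⟨t - 1, by omega⟩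
  have := h s
  have h2 : 1 ≤ 2 ^ (s + 1) := Nat.one_le_two_pow
  unfold bs
  omega

lemma sum_pow_le (R : ℕ) (hR : 2 ≤ R) (J : ℕ) : ∑ i ∈ range J, 4 * R ^ (i + 1) ≤ 8 * R ^ J := by
  induction J with
  | zero => simp
  | succ J ih =>
    rw [sum_range_succ]
    have : 8 * R ^ J ≤ 4 * R ^ (J + 1) := by
      rw [pow_succ]
      nlinarith [Nat.zero_le (R ^ J)]
    omega

/-- All residues modulo `2 ^ (b - 2 * 2 ^ r)` are realised by graphs with a clique of size `b` and
few further vertices. -/
theorem lower_residues (r b : ℕ) (hr : 1 ≤ r) (hb : 8 * 2 ^ r ≤ b) :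
    ∃ J, 8 * (2 ^ r) ^ J ≤ b ∧ ∀ τ, ∃ T, NB (b + (r * J * (J + 1) + 8 * 2 ^ r * J)) b T ∧
      T ≡ τ [MOD 2 ^ (b - 2 * 2 ^ r)] := by
  classical
  set R := 2 ^ r with hRdef
  have hR2 : 2 ≤ R := by
    calc 2 = 2 ^ 1 := by norm_num
      _ ≤ 2 ^ r := Nat.pow_le_pow_right (by norm_num) hr
  have hb8 : b / 8 ≠ 0 := by omega
  set J := Nat.log R (b / 8) with hJ
  have hJ1 : 8 * R ^ J ≤ b := by
    have := Nat.pow_log_le_self R hb8
    rw [← hJ] at this
    omega
  have hJ2 : b < 8 * R ^ (J + 1) := by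
    have := Nat.lt_pow_succ_log_self (b := R) (by omega) (b / 8)
    rw [← hJ] at this
    rw [← Nat.succ_eq_add_one]
    omega
  have hJpos : 1 ≤ J := by
    rw [hJ]
    apply Nat.log_pos (by omega)
    omega
  refine ⟨J, hJ1, ?_⟩
  intro τ
  let t : ℕ → ℕ := fun i => (i + 1) * r
  have htpow : ∀ i, 2 ^ t i = R ^ (i + 1) := by
    intro i
    simp only [t]
    rw [mul_comm, pow_mul]
  have ht1 : ∀ i, 1 ≤ t i := by
    intro i
    simp only [t]
    nlinarith
  have hbs : ∀ i, bs (t i) + 1 ≤ 4 * R ^ (i + 1) := by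
    intro i
    rw [← htpow]
    exact bs_le _ (ht1 i)
  have hsum : ∑ i ∈ range J, bs (t i) ≤ b := by
    calc ∑ i ∈ range J, bs (t i) ≤ ∑ i ∈ range J, 4 * R ^ (i + 1) :=
          sum_le_sum (fun i _ => by have := hbs i; omega)
      _ ≤ 8 * R ^ J := sum_pow_le R hR2 J
      _ ≤ b := hJ1
  set d := b - ∑ i ∈ range J, bs (t i) with hd
  have hVB : (VB J t d).card = b := by
    rw [card_VB]; omega
  have hVU : (VU J t).card = r * J * (J + 1) := by
    rw [card_VU]
    simp only [t]
    have : ∀ J : ℕ, ∑ i ∈ range J, 2 * ((i + 1) * r) = r * J * (J + 1) := by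
      intro J
      induction J with
      | zero => simp
      | succ J ih => rw [sum_range_succ, ih]; ring
    exact this J
  have hpowle : ∀ i, i < J → R ^ (i + 1) ≤ R ^ J := fun i hi =>
    Nat.pow_le_pow_right (by omega) (by omega)
  have key := assembly J t d (Fin J × Fin (4 * R) × Bool) (fun w => w.1.1) (fun w => w.1.2)
    (fun w => (b - 2 * R ^ (w.1.1 + 1) * (w.2.1.1 + 2)) + (if w.2.2 then 1 else 0)) (by
      rintro ⟨i, y, δ⟩
      rw [hVB]
      simp only
      have h1 := hbs i.1
      have h2 := hpowle i.1 i.2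
      have h3 : 4 * R ^ (i.1 + 1) ≤ 2 * R ^ (i.1 + 1) * (y.1 + 2) := by nlinarith [Nat.zero_le (R ^ (i.1 + 1) * y.1)]
      have h4 : (if δ = true then 1 else 0) ≤ 1 := by split_ifs <;> omega
      omega) (b - 2 * R) (by
      intro p hp
      -- the scale
      have hex : ∃ i, i < J ∧ 2 * R ^ (i + 1) < b - p ∧ b - p ≤ 2 * R ^ (i + 1) * (4 * R + 1) := by
        by_contra hcon
        push Not at hcon
        have hall : ∀ i, i < J → 2 * R ^ (i + 1) < b - p := by
          intro i
          induction i with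
          | zero =>
            intro _
            simp only [zero_add, pow_one]
            omega
          | succ i ih =>
            intro hi
            have h1 := hcon i (by omega) (ih (by omega))
            calc 2 * R ^ (i + 1 + 1) = 2 * R ^ (i + 1) * R := by ring
              _ ≤ 2 * R ^ (i + 1) * (4 * R + 1) := Nat.mul_le_mul_left _ (by omega)
              _ < b - p := h1
        have h1 := hcon (J - 1) (by omega) (hall (J - 1) (by omega))
        rw [Nat.sub_add_cancel hJpos] at h1
        have h2 : 8 * R ^ (J + 1) ≤ 2 * R ^ J * (4 * R + 1) := by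
          rw [pow_succ]
          nlinarith [Nat.zero_le (R ^ J)]
        omega
      obtain ⟨i, hi, h1, h2⟩ := hex
      set N := R ^ (i + 1) with hN
      have hNpos : 0 < N := by positivity
      set c := (b - p - 1) / (2 * N) with hc
      have hc1 : 1 ≤ c := by
        rw [hc, Nat.le_div_iff_mul_le (by omega)]
        omega
      have hc2 : c < 4 * R + 1 := by
        rw [hc, Nat.div_lt_iff_lt_mul (by omega)]
        have : 2 * N * (4 * R + 1) = (4 * R + 1) * (2 * N) := by ring
        omega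
      have hc3 : 2 * N * c ≤ b - p - 1 := by
        have := Nat.mul_div_le (b - p - 1) (2 * N)
        rw [← hc] at this
        exact this
      have hc4 : b - p - 1 < 2 * N * c + 2 * N := by
        have := Nat.lt_mul_div_succ (b - p - 1) (b := 2 * N) (by omega)
        rw [← hc] at this
        calc b - p - 1 < 2 * N * (c + 1) := this
          _ = 2 * N * c + 2 * N := by ring
      have hy : c - 1 < 4 * R := by omega
      have hval : 2 * N * (c - 1 + 2) = 2 * N * c + 2 * N := by
        obtain ⟨c', hc'⟩ : ∃ c', c = c' + 1 := ⟨c - 1, by omega⟩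
        rw [hc']
        simp only [Nat.add_sub_cancel]
        ring
      set q := p - (b - 2 * N * (c - 1 + 2)) with hq
      have hq1 : q < 2 * N := by
        rw [hq, hval]
        omega
      have hq2 : p = (b - 2 * N * (c - 1 + 2)) + q := by
        rw [hq, hval]
        omega
      refine ⟨⟨⟨i, hi⟩, ⟨c - 1, hy⟩, decide (q % 2 = 1)⟩, q / 2, ?_, ?_⟩
      · simp only
        rw [htpow, ← hN]
        omega
      · simp only
        rw [← hN]
        by_cases hodd : q % 2 = 1
        · simp only [hodd, decide_true, if_true]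
          omega
        · simp only [hodd, decide_false, Bool.false_eq_true, if_false]
          omega) τ
  obtain ⟨T, hT1, hT2⟩ := key
  refine ⟨T, ?_, hT2⟩
  rw [hVB, hVU] at hT1
  have hcard : Fintype.card (Fin J × Fin (4 * R) × Bool) = 8 * R * J := by
    simp only [Fintype.card_prod, Fintype.card_fin, Fintype.card_bool]
    ring
  rw [hcard, add_assoc] at hT1
  exact hT1

/-- Sums of exactly `a` powers of two with bounded exponents. -/
lemma exists_powers (D : ℕ) : ∀ a q : ℕ, a ≤ q → D ≤ a → q ≤ (a - D) * 2 ^ D →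
    ∃ l : List ℕ, l.length = a ∧ (∀ e ∈ l, e ≤ D) ∧ (l.map (fun e => 2 ^ e)).sum = q := by
  induction D with
  | zero =>
    intro a q h1 _ h3
    have : q = a := by simp at h3; omega
    subst this
    refine ⟨List.replicate q 0, by simp, ?_, by simp⟩
    intro e he
    rw [List.eq_of_mem_replicate he]
  | succ D ih =>
    intro a q h1 h2 h3
    by_cases hq : 2 * a ≤ q
    · -- use `q % 2` ones
      set s := q % 2 with hs
      have hs1 : s ≤ 1 := by omega
      have h4 : (q - s) / 2 ≤ (a - s - D) * 2 ^ D := by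
        have h5 : q ≤ 2 * ((a - (D + 1)) * 2 ^ D) := by
          calc q ≤ (a - (D + 1)) * 2 ^ (D + 1) := h3
            _ = 2 * ((a - (D + 1)) * 2 ^ D) := by rw [pow_succ]; ring
        have h6 : (a - (D + 1)) * 2 ^ D ≤ (a - s - D) * 2 ^ D :=
          Nat.mul_le_mul_right _ (by omega)
        omega
      obtain ⟨l, hl1, hl2, hl3⟩ := ih (a - s) ((q - s) / 2) (by omega) (by omega) h4
      refine ⟨List.replicate s 0 ++ l.map (· + 1), ?_, ?_, ?_⟩
      · simp [hl1]; omega
      · intro e he
        rw [List.mem_append] at he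
        rcases he with he | he
        · rw [List.eq_of_mem_replicate he]; omega
        · rw [List.mem_map] at he
          obtain ⟨e', he', rfl⟩ := he
          have := hl2 e' he'
          omega
      · have h5 : ((l.map (· + 1)).map (fun e => 2 ^ e)).sum = 2 * q.div2 := by
          rw [List.map_map]
          have : ((fun e => 2 ^ e) ∘ fun x : ℕ => x + 1) = fun e => 2 * 2 ^ e := by
            funext e
            simp only [Function.comp]
            rw [pow_succ]; ring
          rw [this, List.sum_map_mul_left, hl3, Nat.div2_val]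
          omega
        rw [List.map_append, List.sum_append, h5, Nat.div2_val]
        simp
        omega
    · refine ⟨List.replicate (2 * a - q) 0 ++ List.replicate (q - a) 1, ?_, ?_, ?_⟩
      · simp; omega
      · intro e he
        rw [List.mem_append] at he
        rcases he with he | he
        · rw [List.eq_of_mem_replicate he]; omega
        · rw [List.eq_of_mem_replicate he]; omega
      · simp
        omega

lemma NB.addMany {b : ℕ} (K : ℕ) (l : List ℕ) : ∀ {n T : ℕ}, NB n b T →
    (∀ e ∈ l, K + e ≤ b) → NB (n + l.length) b (T + 2 ^ K * (l.map (fun e => 2 ^ e)).sum) := by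
  induction l with
  | nil =>
    intro n T h _
    simpa using h
  | cons e l ih =>
    intro n T h he
    have h1 := ih (h.add (K + e) (he e (by simp))) (fun e' he' => he e' (by simp [he']))
    have h2 : n + (e :: l).length = n + 1 + l.length := by simp; ring
    have h3 : T + 2 ^ K * (List.map (fun e => 2 ^ e) (e :: l)).sum =
        T + 2 ^ (K + e) + 2 ^ K * (l.map (fun e => 2 ^ e)).sum := by
      simp [pow_add]; ring
    rw [h2, h3]
    exact h1

lemma NB.pad {n b T : ℕ} (h : NB n b T) (k : ℕ) : NB (n + k) b (T + k) := by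
  induction k with
  | zero => exact h
  | succ k ih => exact ih.add 0 (Nat.zero_le _)

lemma NB.growMany {n b T : ℕ} (h : NB n b T) (k : ℕ) :
    NB (n + k) (b + k) (T + (2 ^ (b + k) - 2 ^ b)) := by
  induction k with
  | zero => simpa using h
  | succ k ih =>
    have h1 := ih.grow
    have h2 : 2 ^ b ≤ 2 ^ (b + k) := Nat.pow_le_pow_right (by norm_num) (by omega)
    have h3 : T + (2 ^ (b + (k + 1)) - 2 ^ b) = T + (2 ^ (b + k) - 2 ^ b) + 2 ^ (b + k) := by
      rw [← add_assoc b k 1, pow_succ]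
      omega
    rw [h3]
    exact h1

lemma NB.le {n b T : ℕ} (h : NB n b T) : T ≤ 2 ^ n := by
  obtain ⟨V, G, A, B, hA, _, _, _, hT⟩ := h
  rw [← hT, ← hA]
  exact ccOn_le G A

/-- A full interval of values. -/
theorem NB_range (r b g : ℕ) (hr : 1 ≤ r) (hb : 8 * 2 ^ r ≤ b)
    (hg : ∀ J, 8 * (2 ^ r) ^ J ≤ b → r * J * (J + 1) + 8 * 2 ^ r * J ≤ g) (τ : ℕ)
    (h1 : 2 ^ (b + g + 2) ≤ τ) (h2 : τ ≤ 2 ^ (b + g + 4)) :
    NB (b + 3 * g + 2 * 2 ^ r + 16) (b + g) τ := by
  obtain ⟨J, hJ, hres⟩ := lower_residues r b hr hb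
  have hgJ := hg J hJ
  set g0 := r * J * (J + 1) + 8 * 2 ^ r * J with hg0
  set R := 2 ^ r with hR
  have hR2 : 2 ≤ R := by
    calc 2 = 2 ^ 1 := by norm_num
      _ ≤ 2 ^ r := Nat.pow_le_pow_right (by norm_num) hr
  set K := b - 2 * R with hK
  -- the residue needed
  have hpb : 2 ^ b ≤ 2 ^ (b + g) := Nat.pow_le_pow_right (by norm_num) (by omega)
  have hp2 : 2 ^ (b + g + 2) = 4 * 2 ^ (b + g) := by rw [pow_add]; norm_num; ring
  have hp4 : 2 ^ (b + g + 4) = 16 * 2 ^ (b + g) := by rw [pow_add]; norm_num; ring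
  have hgle : g - g0 ≤ 2 ^ (b + g) := by
    have : b + g < 2 ^ (b + g) := Nat.lt_two_pow_self
    omega
  obtain ⟨T, hT1, hT2⟩ := hres (τ - (g - g0) - (2 ^ (b + g) - 2 ^ b))
  have hT3 := (hT1.pad (g - g0)).growMany g
  have hn : b + g0 + (g - g0) + g = b + 2 * g := by omega
  rw [hn] at hT3
  set T' := T + (g - g0) + (2 ^ (b + g) - 2 ^ b) with hT'
  have hTle : T + (g - g0) ≤ 2 ^ (b + g) := by
    have := (hT1.pad (g - g0)).le
    have h : b + g0 + (g - g0) = b + g := by omega
    rw [h] at this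
    exact this
  have hT'le : T' ≤ 2 * 2 ^ (b + g) := by
    have hx : 2 ^ (b + g) - 2 ^ b ≤ 2 ^ (b + g) := Nat.sub_le _ _
    calc T' = (T + (g - g0)) + (2 ^ (b + g) - 2 ^ b) := rfl
      _ ≤ 2 ^ (b + g) + 2 ^ (b + g) := add_le_add hTle hx
      _ = 2 * 2 ^ (b + g) := by ring
  have hmod : T' ≡ τ [MOD 2 ^ K] := by
    have h3 := (hT2.add_right (g - g0)).add_right (2 ^ (b + g) - 2 ^ b)
    have h4 : τ - (g - g0) - (2 ^ (b + g) - 2 ^ b) + (g - g0) + (2 ^ (b + g) - 2 ^ b) = τ := by
      omega
    rw [h4] at h3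
    exact h3
  have hdvd : 2 ^ K ∣ τ - T' := (Nat.modEq_iff_dvd' (by omega)).1 hmod
  obtain ⟨q, hq⟩ := hdvd
  set D := g + 2 * R with hD
  have hKD : K + D = b + g := by omega
  have hpow : 2 ^ (b + g) = 2 ^ K * 2 ^ D := by rw [← hKD, pow_add]
  have hKpos : 0 < 2 ^ K := by positivity
  have hq1 : 2 * 2 ^ D ≤ q := by
    have h3 : 2 ^ K * (2 * 2 ^ D) ≤ 2 ^ K * q := by
      rw [← hq]
      have : 2 ^ K * (2 * 2 ^ D) = 2 * 2 ^ (b + g) := by rw [hpow]; ring
      omega
    exact Nat.le_of_mul_le_mul_left h3 hKpos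
  have hq2 : q ≤ 16 * 2 ^ D := by
    have h3 : 2 ^ K * q ≤ 2 ^ K * (16 * 2 ^ D) := by
      rw [← hq]
      have : 2 ^ K * (16 * 2 ^ D) = 16 * 2 ^ (b + g) := by rw [hpow]; ring
      omega
    exact Nat.le_of_mul_le_mul_left h3 hKpos
  have hD16 : D + 16 ≤ 2 * 2 ^ D := by
    have : ∀ D : ℕ, 4 ≤ D → D + 16 ≤ 2 * 2 ^ D := by
      intro D hD
      induction D, hD using Nat.le_induction with
      | base => norm_num
      | succ n hn ih =>
        rw [pow_succ]
        omega
    exact this D (by omega)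
  obtain ⟨l, hl1, hl2, hl3⟩ := exists_powers D (D + 16) q (by omega) (by omega) (by
    have : D + 16 - D = 16 := by omega
    rw [this]
    exact hq2)
  have hfin := hT3.addMany K l (fun e he => by have := hl2 e he; omega)
  rw [hl1, hl3, ← hq] at hfin
  have e1 : T' + (τ - T') = τ := by omega
  have e2 : b + 2 * g + (D + 16) = b + 3 * g + 2 * R + 16 := by omega
  rw [e1, e2] at hfin
  exact hfin

end Pool.Agent.Helper42.CliqueCounts
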