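import Mathlib
import Pool.Agent.Helper42.CliqueCounts.Params

set_option autoImplicit false

open Finset

namespace Pool.Agent.Helper42.CliqueCounts

/-- `f(G)`: the number of complete subgraphs of `G`, i.e. the number of nonempty sets of vertices
any two distinct members of which are adjacent. -/
noncomputable def numComplete {n : ℕ} (G : SimpleGraph (Fin n)) : ℕ :=
  Nat.card {s : Finset (Fin n) // s.Nonempty ∧ G.IsClique (s : Set (Fin n))}

/-- `S_n`: the set of values `f(G)` for the graphs `G` on `n` vertices. -/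
def cliqueCounts (n : ℕ) : Set ℕ := {m | ∃ G : SimpleGraph (Fin n), numComplete G = m}

lemma ccOn_univ_eq {n : ℕ} (G : SimpleGraph (Fin n)) : ccOn G univ = numComplete G + 1 := by
  classical
  have h1 : cliquesOn G univ = insert ∅ ((univ : Finset (Finset (Fin n))).filter
      (fun s : Finset (Fin n) => s.Nonempty ∧ G.IsClique (s : Set (Fin n)))) := by
    ext s
    rw [mem_cliquesOn, mem_insert, mem_filter]
    rcases s.eq_empty_or_nonempty with rfl | h
    · simp
    · simp [h, h.ne_empty]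
  unfold ccOn numComplete
  rw [h1, card_insert_of_notMem (by simp), Nat.card_eq_fintype_card, Fintype.card_subtype]

lemma exists_fin {n b T : ℕ} (h : NB n b T) : ∃ G : SimpleGraph (Fin n), ccOn G univ = T := by
  classical
  obtain ⟨V, G, A, B, hA, _, _, _, hT⟩ := h
  let e : A ≃ Fin n := Finset.equivFinOfCardEq hA
  let em : Fin n ↪ V := ⟨fun i => (e.symm i : V), by
    intro i j hij
    have : e.symm i = e.symm j := Subtype.ext hij
    exact e.symm.injective this⟩
  refine ⟨G.comap em, ?_⟩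
  rw [← hT]
  unfold ccOn
  refine Finset.card_bij (fun s _ => s.map em) ?_ ?_ ?_
  · intro s hs
    rw [mem_cliquesOn] at hs ⊢
    refine ⟨?_, ?_⟩
    · intro v hv
      rw [mem_map] at hv
      obtain ⟨i, _, rfl⟩ := hv
      exact (e.symm i).2
    · intro v hv w hw hvw
      rw [mem_coe, mem_map] at hv hw
      obtain ⟨i, hi, rfl⟩ := hv
      obtain ⟨j, hj, rfl⟩ := hw
      exact hs.2 (mem_coe.2 hi) (mem_coe.2 hj) (by rintro rfl; exact hvw rfl)
  · intro s _ s' _ h
    exact Finset.map_injective em h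
  · intro s hs
    rw [mem_cliquesOn] at hs
    refine ⟨univ.filter (fun i => em i ∈ s), ?_, ?_⟩
    · rw [mem_cliquesOn]
      refine ⟨subset_univ _, ?_⟩
      intro i hi j hj hij
      rw [mem_coe, mem_filter] at hi hj
      exact hs.2 (mem_coe.2 hi.2) (mem_coe.2 hj.2) (by
        intro h; exact hij (em.injective h))
    · ext v
      rw [mem_map]
      constructor
      · rintro ⟨i, hi, rfl⟩
        exact (mem_filter.1 hi).2
      · intro hv
        refine ⟨e ⟨v, hs.1 hv⟩, ?_, ?_⟩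
        · rw [mem_filter]
          refine ⟨mem_univ _, ?_⟩
          simp only [em, Function.Embedding.coeFn_mk, Equiv.symm_apply_apply]
          exact hv
        · simp only [em, Function.Embedding.coeFn_mk, Equiv.symm_apply_apply]

lemma mem_cliqueCounts {n m : ℕ} : m ∈ cliqueCounts n ↔ ∃ b, NB n b (m + 1) := by
  constructor
  · rintro ⟨G, hG⟩
    refine ⟨0, Fin n, G, univ, ∅, by simp, by simp, by simp, by simp, ?_⟩
    rw [ccOn_univ_eq, hG]
  · rintro ⟨b, h⟩
    obtain ⟨G, hG⟩ := exists_fin h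
    refine ⟨G, ?_⟩
    rw [ccOn_univ_eq] at hG
    omega

lemma NB_one : NB 1 1 2 := by
  have h0 : NB 0 0 1 := by
    refine ⟨Unit, ⊥, ∅, ∅, by simp, by simp, by simp, by simp, ?_⟩
    have := ccOn_of_isClique (⊥ : SimpleGraph Unit) ∅ (by simp)
    simpa using this
  exact h0.grow

lemma NB_edges (e : ℕ) : NB (1 + e) 1 (2 + 2 * e) := by
  induction e with
  | zero => exact NB_one
  | succ e ih =>
    have := ih.add 1 (le_refl 1)
    have h : 2 + 2 * (e + 1) = 2 + 2 * e + 2 ^ 1 := by ring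
    rw [h]
    exact this

theorem mem_of_le (m0 : ℕ) (np : ℕ → ℕ)
    (hnp : ∀ m, m0 ≤ m → ∀ τ, 2 ^ m ≤ τ → τ ≤ 2 ^ (m + 2) → ∃ b, NB (np m) b τ)
    (hnp2 : ∀ m, m0 ≤ m → np m ≤ 2 ^ m) (n H : ℕ) (hn : 2 ^ (m0 + 2) ≤ n)
    (hH : ∀ m, m0 ≤ m → m ≤ n → np m ≤ m + H) (T : ℕ) (h1 : n + 1 ≤ T)
    (h2 : T ≤ 2 ^ (n - H)) : ∃ b, NB n b T := by
  by_cases hT : T ≤ 2 * n
  · refine ⟨1, ?_⟩
    have h3 := (NB_edges (T - n - 1)).pad (n - 1 - (T - n - 1))
    have e1 : 1 + (T - n - 1) + (n - 1 - (T - n - 1)) = n := by omega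
    have e2 : 2 + 2 * (T - n - 1) + (n - 1 - (T - n - 1)) = T := by omega
    rw [e1, e2] at h3
    exact h3
  · push Not at hT
    set u := T - n with hu
    have hex : ∃ m, m0 ≤ m ∧ u + np m ≤ 2 ^ (m + 2) := by
      refine ⟨max m0 u, le_max_left _ _, ?_⟩
      have h3 := hnp2 (max m0 u) (le_max_left _ _)
      have h4 : u ≤ 2 ^ (max m0 u) := by
        calc u ≤ 2 ^ u := Nat.lt_two_pow_self.le
          _ ≤ 2 ^ (max m0 u) := Nat.pow_le_pow_right (by norm_num) (le_max_right _ _)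
      have h5 : 2 ^ (max m0 u + 2) = 4 * 2 ^ (max m0 u) := by rw [pow_add]; ring
      omega
    classical
    set m := Nat.find hex with hm
    obtain ⟨hm1, hm2⟩ : m0 ≤ m ∧ u + np m ≤ 2 ^ (m + 2) := Nat.find_spec hex
    have hmne : m ≠ m0 := by
      intro h
      rw [h] at hm2
      omega
    obtain ⟨k, hk⟩ : ∃ k, m = k + 1 := ⟨m - 1, by omega⟩
    have hk0 : m0 ≤ k := by omega
    have hk1 : ¬ (m0 ≤ k ∧ u + np k ≤ 2 ^ (k + 2)) := Nat.find_min hex (by omega)
    have hk2 : 2 ^ (k + 2) < u + np k := by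
      by_contra hcon
      exact hk1 ⟨hk0, by omega⟩
    have hk3 := hnp2 k hk0
    have hp1 : 2 ^ (k + 2) = 4 * 2 ^ k := by rw [pow_add]; ring
    have hp2 : 2 ^ m = 2 * 2 ^ k := by rw [hk, pow_succ]; ring
    have hu2 : 2 ^ m < u := by omega
    have hmn : m < n - H := by
      have : 2 ^ m < 2 ^ (n - H) := by omega
      exact (Nat.pow_lt_pow_iff_right (by norm_num)).1 this
    have hnpm := hH m hm1 (by omega)
    obtain ⟨b, hb⟩ := hnp m hm1 (u + np m) (by omega) hm2
    refine ⟨b, ?_⟩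
    have h3 := hb.pad (n - np m)
    have e1 : np m + (n - np m) = n := by omega
    have e2 : u + np m + (n - np m) = T := by omega
    rw [e1, e2] at h3
    exact h3

/-- binary logarithm -/
def ll (m : ℕ) : ℕ := Nat.log 2 m
/-- iterated binary logarithm -/
def rr (m : ℕ) : ℕ := Nat.log 2 (ll m)
/-- number of additional vertices -/
def gg (m : ℕ) : ℕ := 9 * ll m * (ll m / rr m) + ll m
/-- number of vertices used for the values between `2 ^ m` and `2 ^ (m + 2)` -/
def np (m : ℕ) : ℕ := m + 2 * gg m + 2 * 2 ^ rr m + 14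

lemma poly_le_two_pow (k : ℕ) (hk : 14 ≤ k) : 36 * k ^ 2 + 14 * k + 16 ≤ 2 ^ k := by
  induction k, hk using Nat.le_induction with
  | base => norm_num
  | succ k hk ih =>
    rw [pow_succ 2 k]
    nlinarith

lemma le_ll {m : ℕ} (hm : 2 ^ 14 ≤ m) : 14 ≤ ll m := by
  unfold ll
  exact Nat.le_log_of_pow_le (by norm_num) hm

lemma one_le_rr {m : ℕ} (hm : 2 ^ 14 ≤ m) : 1 ≤ rr m := by
  unfold rr
  exact Nat.log_pos (by norm_num) (by have := le_ll hm; omega)

lemma two_pow_rr_le {m : ℕ} (hm : 2 ^ 14 ≤ m) : 2 ^ rr m ≤ ll m := by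
  unfold rr
  exact Nat.pow_log_le_self 2 (by have := le_ll hm; omega)

lemma np_bound {m : ℕ} (hm : 2 ^ 14 ≤ m) : np m ≤ m + 36 * (ll m * (ll m / rr m)) := by
  have h1 := le_ll hm
  have h2 := one_le_rr hm
  have h3 := two_pow_rr_le hm
  have h4 : 1 ≤ ll m / rr m := by
    rw [Nat.le_div_iff_mul_le (by omega), one_mul]
    exact (Nat.lt_two_pow_self.le).trans h3
  unfold np gg
  have h5 : ll m ≤ ll m * (ll m / rr m) := Nat.le_mul_of_pos_right _ (by omega)
  have h6 : 9 * ll m * (ll m / rr m) = 9 * (ll m * (ll m / rr m)) := by ring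
  omega

lemma np_le {m : ℕ} (hm : 2 ^ 14 ≤ m) : m + 36 * (ll m) ^ 2 + 14 * ll m + 16 ≤ 2 * m := by
  have h1 := poly_le_two_pow (ll m) (le_ll hm)
  have h2 : 2 ^ ll m ≤ m := Nat.pow_log_le_self 2 (by omega)
  omega

lemma np_le_two_pow {m : ℕ} (hm : 2 ^ 14 ≤ m) : np m ≤ 2 ^ m := by
  have h1 := np_bound hm
  have h2 := np_le hm
  have h3 : ll m * (ll m / rr m) ≤ (ll m) ^ 2 := by
    rw [sq]
    exact Nat.mul_le_mul_left _ (Nat.div_le_self _ _)
  have h4 : 2 * m ≤ 2 ^ m := by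
    have : ∀ m : ℕ, 2 ≤ m → 2 * m ≤ 2 ^ m := by
      intro m hm
      induction m, hm using Nat.le_induction with
      | base => norm_num
      | succ k hk ih => rw [pow_succ]; omega
    exact this m (by omega)
  omega

lemma NB_np {m : ℕ} (hm : 2 ^ 14 ≤ m) (τ : ℕ) (h1 : 2 ^ m ≤ τ) (h2 : τ ≤ 2 ^ (m + 2)) :
    ∃ b, NB (np m) b τ := by
  have hl := le_ll hm
  have hr := one_le_rr hm
  have hR := two_pow_rr_le hm
  have hnp := np_le hm
  have hgg : gg m ≤ 10 * (ll m) ^ 2 := by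
    unfold gg
    have h3 : ll m * (ll m / rr m) ≤ (ll m) ^ 2 := by
      rw [sq]
      exact Nat.mul_le_mul_left _ (Nat.div_le_self _ _)
    have h4 : ll m ≤ (ll m) ^ 2 := by nlinarith
    have h6 : 9 * ll m * (ll m / rr m) = 9 * (ll m * (ll m / rr m)) := by ring
    omega
  have hb : 8 * 2 ^ rr m ≤ m - 2 - gg m := by omega
  have key := NB_range (rr m) (m - 2 - gg m) (gg m) hr hb (by
    intro J hJ
    have hJ2 : 2 ^ (rr m * J) ≤ m := by
      rw [pow_mul]
      omega
    have hJ3 : rr m * J ≤ ll m := Nat.le_log_of_pow_le (by norm_num) hJ2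
    have hJ4 : J ≤ ll m / rr m := by
      rw [Nat.le_div_iff_mul_le (by omega), mul_comm]
      exact hJ3
    unfold gg
    have h5 : rr m * J * (J + 1) ≤ ll m * (ll m / rr m) + ll m := by
      calc rr m * J * (J + 1) ≤ ll m * (J + 1) := Nat.mul_le_mul_right _ hJ3
        _ = ll m * J + ll m := by ring
        _ ≤ ll m * (ll m / rr m) + ll m := by
          have := Nat.mul_le_mul_left (ll m) hJ4
          omega
    have h6 : 8 * 2 ^ rr m * J ≤ 8 * (ll m * (ll m / rr m)) := by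
      rw [mul_assoc]
      exact Nat.mul_le_mul_left _ (Nat.mul_le_mul hR hJ4)
    have h7 : 9 * ll m * (ll m / rr m) = 9 * (ll m * (ll m / rr m)) := by ring
    omega) τ (by
      have : m - 2 - gg m + gg m + 2 = m := by omega
      rw [this]; exact h1) (by
      have : m - 2 - gg m + gg m + 4 = m + 2 := by omega
      rw [this]; exact h2)
  refine ⟨m - 2 - gg m + gg m, ?_⟩
  have e1 : m - 2 - gg m + 3 * gg m + 2 * 2 ^ rr m + 16 = np m := by
    unfold np
    omega
  rw [e1] at key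
  exact key

/-- Every value between `n + 1` and `2 ^ (n - H)` is a number of cliques (the empty set
included). -/
theorem interval_nat (n H : ℕ) (hn2 : 2 ^ (2 ^ 14 + 2) ≤ n)
    (hH : ∀ m, 2 ^ 14 ≤ m → m ≤ n → 36 * (ll m * (ll m / rr m)) ≤ H) (T : ℕ)
    (h1 : n + 1 ≤ T) (h2 : T ≤ 2 ^ (n - H)) : ∃ b, NB n b T := by
  refine mem_of_le (2 ^ 14) np (fun m hm τ h1 h2 => NB_np hm τ h1 h2)
    (fun m hm => np_le_two_pow hm) n H hn2 ?_ T h1 h2
  intro m hm hmn
  have h3 := np_bound hm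
  have h4 := hH m hm hmn
  omega

end Pool.Agent.Helper42.CliqueCounts
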