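import Mathlib
import Pool.Agent.Helper42.CliqueCounts.Interval

set_option autoImplicit false

open Finset Filter

namespace Pool.Agent.Helper42.CliqueCounts

/-- `L(n) = (log n)^2 / log log n`. -/
noncomputable def L (n : ℕ) : ℝ := (Real.log n) ^ 2 / Real.log (Real.log n)

lemma sq_div_log_mono {x y : ℝ} (hx : 3 ≤ x) (hxy : x ≤ y) :
    x ^ 2 / Real.log x ≤ y ^ 2 / Real.log y := by
  have he : Real.exp 1 ≤ 3 := by
    have := Real.exp_one_lt_d9
    linarith
  have h1 := Real.log_div_self_antitoneOn (show x ∈ {x | Real.exp 1 ≤ x} from he.trans hx)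
    (show y ∈ {x | Real.exp 1 ≤ x} from (he.trans hx).trans hxy) hxy
  simp only at h1
  have hx0 : 0 < x := by linarith
  have hy0 : 0 < y := by linarith
  have hlx : 0 < Real.log x := Real.log_pos (by linarith)
  have hly : 0 < Real.log y := Real.log_pos (by linarith)
  rw [div_le_div_iff₀ hy0 hx0] at h1
  rw [div_le_div_iff₀ hlx hly]
  nlinarith [mul_le_mul hxy h1 (by positivity) hy0.le]

lemma bound_real {m n : ℕ} (hm : 2 ^ 14 ≤ m) (hmn : m ≤ n) :
    ((36 * (ll m * (ll m / rr m)) : ℕ) : ℝ) ≤ 72 / Real.log 2 * L n := by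
  have hl := le_ll hm
  have hr := one_le_rr hm
  have hlog2 : 0 < Real.log 2 := Real.log_pos (by norm_num)
  have hlr : (0 : ℝ) < rr m := by exact_mod_cast hr
  have hll : (14 : ℝ) ≤ ll m := by exact_mod_cast hl
  have hloglm : 0 < Real.log (ll m) := Real.log_pos (by linarith)
  -- the division
  have h1 : ((ll m / rr m : ℕ) : ℝ) ≤ (ll m : ℝ) / rr m := Nat.cast_div_le
  have h2 : Real.log (ll m) ≤ 2 * rr m * Real.log 2 := by
    have h3 : (ll m : ℝ) ≤ 2 ^ (rr m + 1) := by
      have : ll m < 2 ^ (rr m + 1) := Nat.lt_pow_succ_log_self (by norm_num) _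
      exact_mod_cast this.le
    have h4 := Real.log_le_log (by linarith) h3
    rw [Real.log_pow] at h4
    push_cast at h4
    have h5 : (1 : ℝ) ≤ rr m := by exact_mod_cast hr
    nlinarith
  have h3 : (ll m : ℝ) / rr m ≤ 2 * Real.log 2 * (ll m / Real.log (ll m)) := by
    have e : 2 * Real.log 2 * (ll m / Real.log (ll m)) = (2 * Real.log 2 * ll m) / Real.log (ll m) := by
      ring
    rw [e, div_le_div_iff₀ hlr hloglm]
    nlinarith
  have h4 : ((36 * (ll m * (ll m / rr m)) : ℕ) : ℝ) ≤
      72 * Real.log 2 * ((ll m : ℝ) ^ 2 / Real.log (ll m)) := by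
    push_cast
    calc 36 * ((ll m : ℝ) * ((ll m / rr m : ℕ) : ℝ))
        ≤ 36 * ((ll m : ℝ) * (2 * Real.log 2 * (ll m / Real.log (ll m)))) := by
          have := h1.trans h3
          gcongr
      _ = 72 * Real.log 2 * ((ll m : ℝ) ^ 2 / Real.log (ll m)) := by ring
  -- comparison with n
  have hn1 : (2 : ℝ) ^ 14 ≤ n := by exact_mod_cast hm.trans hmn
  have hm0 : (0 : ℝ) < m := by
    have : 0 < m := by omega
    exact_mod_cast this
  have hllm : (ll m : ℝ) ≤ Real.log n / Real.log 2 := by
    have h5 : (ll m : ℝ) ≤ Real.logb 2 m := Real.natLog_le_logb m 2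
    rw [Real.logb] at h5
    refine h5.trans ?_
    gcongr
  have h5 := sq_div_log_mono (by linarith : (3 : ℝ) ≤ ll m) hllm
  have hlogn : 1 < Real.log n := by
    have h6 : (14 : ℝ) * Real.log 2 ≤ Real.log n := by
      have := Real.log_le_log (by positivity) hn1
      rw [Real.log_pow] at this
      exact_mod_cast this
    have h7 := Real.log_two_gt_d9
    linarith
  have hloglog : 0 < Real.log (Real.log n) := Real.log_pos hlogn
  have h6 : Real.log (Real.log n) ≤ Real.log (Real.log n / Real.log 2) := by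
    apply Real.log_le_log (by linarith)
    rw [le_div_iff₀ hlog2]
    have := Real.log_two_lt_d9
    nlinarith
  have h7 : (Real.log n / Real.log 2) ^ 2 / Real.log (Real.log n / Real.log 2) ≤
      (Real.log n / Real.log 2) ^ 2 / Real.log (Real.log n) := by
    gcongr
  calc ((36 * (ll m * (ll m / rr m)) : ℕ) : ℝ)
      ≤ 72 * Real.log 2 * ((ll m : ℝ) ^ 2 / Real.log (ll m)) := h4
    _ ≤ 72 * Real.log 2 * ((Real.log n / Real.log 2) ^ 2 / Real.log (Real.log n)) := by
        have := h5.trans h7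
        gcongr
    _ = 72 / Real.log 2 * L n := by
        unfold L
        field_simp

lemma tendsto_log_nat : Tendsto (fun n : ℕ => Real.log n) atTop atTop :=
  Real.tendsto_log_atTop.comp tendsto_natCast_atTop_atTop

lemma tendsto_L : Tendsto L atTop atTop := by
  have h1 : Tendsto (fun x : ℝ => x / Real.log x) atTop atTop := by
    have h2 : Tendsto (fun x : ℝ => Real.log x / x) atTop (nhds 0) :=
      Real.isLittleO_log_id_atTop.tendsto_div_nhds_zero
    have h3 : ∀ᶠ x : ℝ in atTop, 0 < Real.log x / x := by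
      filter_upwards [eventually_gt_atTop 1] with x hx
      exact div_pos (Real.log_pos hx) (by linarith)
    have h4 : Tendsto (fun x : ℝ => (Real.log x / x)⁻¹) atTop atTop :=
      Tendsto.inv_tendsto_nhdsGT_zero (tendsto_nhdsWithin_iff.2 ⟨h2, h3⟩)
    refine h4.congr ?_
    intro x
    rw [inv_div]
  have h2 : Tendsto (fun x : ℝ => x ^ 2 / Real.log x) atTop atTop := by
    have h3 := h1.atTop_mul_atTop₀ tendsto_id
    refine h3.congr ?_
    intro x
    simp only [id]
    ring
  exact h2.comp tendsto_log_nat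

/-- Part 1: every integer between `n` and `2 ^ (n - C L(n))` lies in `S_n`. -/
theorem part1 : ∃ C : ℝ, 0 < C ∧ ∀ᶠ n : ℕ in atTop, ∀ m : ℕ, n ≤ m →
    (m : ℝ) ≤ 2 ^ ((n : ℝ) - C * L n) → m ∈ cliqueCounts n := by
  have hlog2 : 0 < Real.log 2 := Real.log_pos (by norm_num)
  refine ⟨72 / Real.log 2 + 1, by positivity, ?_⟩
  filter_upwards [eventually_ge_atTop (2 ^ (2 ^ 14 + 2)), tendsto_L.eventually_ge_atTop 1]
    with n hn hL m hnm hm
  rw [mem_cliqueCounts]
  set H := ⌊72 / Real.log 2 * L n⌋₊ with hH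
  have hL0 : 0 ≤ 72 / Real.log 2 * L n := by positivity
  have hHle : (H : ℝ) ≤ 72 / Real.log 2 * L n := Nat.floor_le hL0
  refine interval_nat n H hn ?_ (m + 1) (by omega) ?_
  · intro k hk hkn
    exact Nat.le_floor (bound_real hk hkn)
  · have h1 : (1 : ℝ) ≤ m := by
      have : 1 ≤ m := by
        have : 1 ≤ 2 ^ (2 ^ 14 + 2) := Nat.one_le_two_pow
        omega
      exact_mod_cast this
    have h2 : (m : ℝ) + 1 ≤ 2 ^ ((n : ℝ) - 72 / Real.log 2 * L n) := by
      have h3 : (2 : ℝ) ^ ((n : ℝ) - (72 / Real.log 2 + 1) * L n) * 2 ≤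
          2 ^ ((n : ℝ) - 72 / Real.log 2 * L n) := by
        have e : (2 : ℝ) ^ ((n : ℝ) - (72 / Real.log 2 + 1) * L n) * 2 =
            2 ^ ((n : ℝ) - (72 / Real.log 2 + 1) * L n + 1) := by
          rw [Real.rpow_add (by norm_num), Real.rpow_one]
        rw [e]
        apply Real.rpow_le_rpow_of_exponent_le (by norm_num)
        linarith
      linarith
    have h3 : 0 < (n : ℝ) - 72 / Real.log 2 * L n := by
      by_contra hcon
      push Not at hcon
      have : (2 : ℝ) ^ ((n : ℝ) - 72 / Real.log 2 * L n) ≤ 1 :=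
        Real.rpow_le_one_of_one_le_of_nonpos (by norm_num) hcon
      linarith
    have hHn : H ≤ n := by
      have : (H : ℝ) < n := by linarith
      exact_mod_cast this.le
    have h4 : (m : ℝ) + 1 ≤ 2 ^ (n - H) := by
      refine h2.trans ?_
      rw [← Real.rpow_natCast]
      apply Real.rpow_le_rpow_of_exponent_le (by norm_num)
      push_cast [hHn]
      linarith
    exact_mod_cast h4

end Pool.Agent.Helper42.CliqueCounts
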