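import Mathlib
import Pool.Agent.Helper42.CliqueCounts.Interval

set_option autoImplicit false

open Finset

namespace Pool.Agent.Helper42.CliqueCounts

/-- A maximal system of disjoint nonadjacent pairs. -/
lemma exists_matching {V : Type*} (G : SimpleGraph V) : ∀ (N : ℕ) (A : Finset V), A.card = N →
    open Classical in
    ∃ W, W ⊆ A ∧ ∃ μ, W.card = 2 * μ ∧ G.IsClique ((A \ W : Finset V) : Set V) ∧
      ccOn G A * 4 ^ μ ≤ 3 ^ μ * 2 ^ A.card := by
  classical
  intro N
  induction N using Nat.strong_induction_on with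
  | _ N ih =>
    intro A hA
    by_cases hcl : G.IsClique (A : Set V)
    · refine ⟨∅, empty_subset _, 0, by simp, by simpa using hcl, ?_⟩
      simpa using ccOn_le G A
    · have hex : ∃ u ∈ A, ∃ v ∈ A, u ≠ v ∧ ¬ G.Adj u v := by
        by_contra hcon
        push Not at hcon
        exact hcl (fun u hu v hv huv => hcon u hu v hv huv)
      obtain ⟨u, hu, v, hv, huv, hnadj⟩ := hex
      set A' := (A.erase u).erase v with hA'
      have hvA : v ∈ A.erase u := mem_erase.2 ⟨huv.symm, hv⟩
      have hcard : A'.card + 2 = A.card := by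
        rw [hA', card_erase_of_mem hvA, card_erase_of_mem hu]
        have : 2 ≤ A.card := by
          have h1 : ({u, v} : Finset V).card ≤ A.card := card_le_card (by
            intro x hx
            simp only [mem_insert, mem_singleton] at hx
            rcases hx with rfl | rfl
            · exact hu
            · exact hv)
          rw [card_pair huv] at h1
          exact h1
        omega
      obtain ⟨W', hW'A, μ, hW'c, hW'cl, hW'⟩ := ih A'.card (by omega) A' rfl
      have huA' : u ∉ A' := by simp [hA']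
      have hvA' : v ∉ A' := by simp [hA']
      have huW : u ∉ W' := fun h => huA' (hW'A h)
      have hvW : v ∉ W' := fun h => hvA' (hW'A h)
      refine ⟨insert u (insert v W'), ?_, μ + 1, ?_, ?_, ?_⟩
      · intro x hx
        simp only [mem_insert] at hx
        rcases hx with rfl | rfl | hx
        · exact hu
        · exact hv
        · exact mem_of_mem_erase (mem_of_mem_erase (hW'A hx))
      · rw [card_insert_of_notMem (by simp [huv, huW]), card_insert_of_notMem hvW, hW'c]
        ring
      · have : A \ insert u (insert v W') = A' \ W' := by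
          ext x
          simp only [mem_sdiff, mem_insert, hA', mem_erase]
          tauto
        rw [this]
        exact hW'cl
      · have h3 : ccOn G A ≤ 3 * ccOn G A' := by
          have hsub : cliquesOn G A ⊆ (cliquesOn G A').biUnion
              (fun s => {s, insert u s, insert v s}) := by
            intro s hs
            rw [mem_cliquesOn] at hs
            rw [mem_biUnion]
            refine ⟨(s.erase u).erase v, ?_, ?_⟩
            · rw [mem_cliquesOn]
              refine ⟨?_, hs.2.subset ?_⟩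
              · exact erase_subset_erase _ (erase_subset_erase _ hs.1)
              · intro x hx
                simp only [coe_erase, Set.mem_sdiff, mem_coe, Set.mem_singleton_iff] at hx
                exact hx.1.1
            · simp only [mem_insert, mem_singleton]
              by_cases h1 : u ∈ s
              · have h2 : v ∉ s := by
                  intro h2
                  exact hnadj (hs.2 h1 h2 huv)
                right; left
                rw [erase_eq_of_notMem (show v ∉ s.erase u by simp [h2]), insert_erase h1]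
              · rw [erase_eq_of_notMem h1]
                by_cases h2 : v ∈ s
                · right; right
                  rw [insert_erase h2]
                · left
                  rw [erase_eq_of_notMem h2]
          unfold ccOn
          calc (cliquesOn G A).card ≤ _ := card_le_card hsub
            _ ≤ ∑ s ∈ cliquesOn G A', ({s, insert u s, insert v s} : Finset (Finset V)).card :=
              card_biUnion_le
            _ ≤ ∑ s ∈ cliquesOn G A', 3 := sum_le_sum (fun s _ => card_le_three)
            _ = 3 * (cliquesOn G A').card := by rw [sum_const, smul_eq_mul, mul_comm]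
        calc ccOn G A * 4 ^ (μ + 1) ≤ (3 * ccOn G A') * 4 ^ (μ + 1) := Nat.mul_le_mul_right _ h3
          _ = 12 * (ccOn G A' * 4 ^ μ) := by ring
          _ ≤ 12 * (3 ^ μ * 2 ^ A'.card) := Nat.mul_le_mul_left _ hW'
          _ = 3 ^ (μ + 1) * 2 ^ (A'.card + 2) := by ring
          _ = 3 ^ (μ + 1) * 2 ^ A.card := by rw [hcard]

open Classical in
/-- number of vertices of `B` adjacent to all members of `S` -/
noncomputable def cnt {V : Type*} (G : SimpleGraph V) (B S : Finset V) : ℕ :=
  (B.filter (fun b => ∀ u ∈ S, G.Adj u b)).card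

open Classical in
/-- number of vertices of `B` not adjacent to `w` -/
noncomputable def miss {V : Type*} (G : SimpleGraph V) (B : Finset V) (w : V) : ℕ :=
  (B.filter (fun b => ¬ G.Adj w b)).card

open Classical in
/-- the vertices of `B` not adjacent to some member of `S` -/
noncomputable def low {V : Type*} (G : SimpleGraph V) (B S : Finset V) : Finset V :=
  B.filter (fun b => ∃ w ∈ S, ¬ G.Adj w b)

lemma ccOn_eq_sum_cnt {V : Type*} (G : SimpleGraph V) (A U B : Finset V)
    (hA : ∀ v, v ∈ A ↔ v ∈ U ∨ v ∈ B)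
    (hUB : Disjoint U B) (hB : G.IsClique (B : Set V)) :
    ccOn G A = ∑ S ∈ cliquesOn G U, 2 ^ cnt G B S := by
  classical
  have : A = U ∪ B := by
    ext v; rw [hA, mem_union]
  rw [this]
  have h := ccOn_union G U B hUB hB
  unfold cnt
  convert h

lemma card_low_le {V : Type*} (G : SimpleGraph V) (B S : Finset V) (k : ℕ)
    (h : ∀ w ∈ S, miss G B w ≤ k) : (low G B S).card ≤ S.card * k := by
  classical
  have h1 : low G B S ⊆ S.biUnion (fun w => B.filter (fun b => ¬ G.Adj w b)) := by
    intro b hb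
    unfold low at hb
    rw [mem_filter] at hb
    obtain ⟨hb, w, hw, h⟩ := hb
    rw [mem_biUnion]
    exact ⟨w, hw, mem_filter.2 ⟨hb, h⟩⟩
  calc _ ≤ _ := card_le_card h1
    _ ≤ ∑ w ∈ S, (B.filter (fun b => ¬ G.Adj w b)).card := card_biUnion_le
    _ ≤ ∑ w ∈ S, k := sum_le_sum (fun w hw => by
        have := h w hw
        unfold miss at this
        convert this)
    _ = S.card * k := by rw [sum_const, smul_eq_mul]

lemma cnt_add_miss_le {V : Type*} (G : SimpleGraph V) (B S : Finset V) (w : V) (hw : w ∈ S) :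
    cnt G B S + miss G B w ≤ B.card := by
  classical
  have h2 : cnt G B S ≤ (B.filter (fun b => G.Adj w b)).card := by
    unfold cnt
    apply card_le_card
    intro b hb
    rw [mem_filter] at hb ⊢
    exact ⟨hb.1, hb.2 w hw⟩
  have h3 := card_filter_add_card_filter_not (s := B) (fun b => G.Adj w b)
  have h4 : miss G B w = (B.filter (fun b => ¬ G.Adj w b)).card := by
    unfold miss
    congr
  omega

/-- the data from which the main part of the number of cliques is computed -/
abbrev Dat (s a M n : ℕ) : Type :=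
  ((Fin (s + 1) ⊕ Fin (a + 1)) → (Fin (s + 1) ⊕ Fin (a + 1)) → Bool) × Finset (Fin (M + 1)) ×
    ((Fin (s + 1) ⊕ Fin (a + 1)) → Finset (Fin (M + 1))) × (Finset (Fin (a + 1)) → Fin (n + 1))

/-- the decoder -/
def dec {s a M n : ℕ} (D : Dat s a M n) : ℕ :=
  ∑ S ∈ (univ : Finset (Finset (Fin (s + 1) ⊕ Fin (a + 1)))).filter
      (fun S => ∀ x ∈ S, ∀ y ∈ S, D.1 x y = true),
    2 ^ ((D.2.1.filter (fun j => ∀ x ∈ S, j ∈ D.2.2.1 x)).card + (D.2.2.2 S.toRight : ℕ))

lemma card_Dat (s a M n : ℕ) : Fintype.card (Dat s a M n) =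
    2 ^ ((s + a + 2) ^ 2 + (M + 1) * (s + a + 3)) * (n + 1) ^ (2 ^ (a + 1)) := by
  simp only [Dat, Fintype.card_prod, Fintype.card_fun, Fintype.card_finset, Fintype.card_fin,
    Fintype.card_sum, Fintype.card_bool]
  rw [← pow_mul, ← pow_mul]
  have e1 : s + 1 + (a + 1) = s + a + 2 := by ring
  rw [e1]
  have e2 : (s + a + 2) ^ 2 + (M + 1) * (s + a + 3) =
    (s + a + 2) * (s + a + 2) + ((M + 1) + (M + 1) * (s + a + 2)) := by ring
  rw [e2, pow_add, pow_add]
  ring

/-- The main part of the number of cliques is computed from bounded data. -/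
lemma exists_dat {V : Type*} (G : SimpleGraph V) (B WH Wlo Wwin : Finset V) (n s a M : ℕ)
    (hWH' : ∀ v, v ∈ WH ↔ v ∈ Wlo ∨ v ∈ Wwin)
    (hdisj : Disjoint Wlo Wwin) (hlo : Wlo.card ≤ s + 1) (hwin : Wwin.card ≤ a + 1)
    (hB : B.card ≤ n) (hM : (low G B Wlo).card ≤ M + 1) :
    ∃ D : Dat s a M n, dec D = ∑ S ∈ cliquesOn G WH, 2 ^ cnt G B S := by
  classical
  unfold low at hM
  unfold cnt
  set Vlo := B.filter (fun b => ∃ w ∈ Wlo, ¬ G.Adj w b) with hVlo
  have hWH : WH = Wlo ∪ Wwin := by
    ext v; rw [hWH', mem_union]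
  -- embeddings
  obtain ⟨φ1⟩ : Nonempty (Wlo ↪ Fin (s + 1)) := Function.Embedding.nonempty_of_card_le (by
    simpa using hlo)
  obtain ⟨φ2⟩ : Nonempty (Wwin ↪ Fin (a + 1)) := Function.Embedding.nonempty_of_card_le (by
    simpa using hwin)
  obtain ⟨ψ1⟩ : Nonempty (Vlo ↪ Fin (M + 1)) := Function.Embedding.nonempty_of_card_le (by
    simpa using hM)
  let φ : V → Fin (s + 1) ⊕ Fin (a + 1) := fun v =>
    if h : v ∈ Wlo then Sum.inl (φ1 ⟨v, h⟩) else
      if h' : v ∈ Wwin then Sum.inr (φ2 ⟨v, h'⟩) else Sum.inl 0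
  let ψ : V → Fin (M + 1) := fun v => if h : v ∈ Vlo then ψ1 ⟨v, h⟩ else 0
  have hφlo : ∀ v (h : v ∈ Wlo), φ v = Sum.inl (φ1 ⟨v, h⟩) := fun v h => by
    simp only [φ, dif_pos h]
  have hφwin : ∀ v (h : v ∈ Wwin), φ v = Sum.inr (φ2 ⟨v, h⟩) := fun v h => by
    have : v ∉ Wlo := fun h' => Finset.disjoint_left.1 hdisj h' h
    simp only [φ, dif_neg this, dif_pos h]
  have hφinj : ∀ u ∈ Wlo ∪ Wwin, ∀ v ∈ Wlo ∪ Wwin, φ u = φ v → u = v := by
    intro u hu v hv h
    rw [mem_union] at hu hv
    rcases hu with hu | hu <;> rcases hv with hv | hv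
    · rw [hφlo u hu, hφlo v hv] at h
      have := φ1.injective (Sum.inl_injective h)
      exact congrArg Subtype.val this
    · rw [hφlo u hu, hφwin v hv] at h
      simp at h
    · rw [hφwin u hu, hφlo v hv] at h
      simp at h
    · rw [hφwin u hu, hφwin v hv] at h
      have := φ2.injective (Sum.inr_injective h)
      exact congrArg Subtype.val this
  have hψinj : ∀ u ∈ Vlo, ∀ v ∈ Vlo, ψ u = ψ v → u = v := by
    intro u hu v hv h
    simp only [ψ, dif_pos hu, dif_pos hv] at h
    have := ψ1.injective h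
    exact congrArg Subtype.val this
  rw [← hWH] at hφinj
  let gcount : Finset (Fin (a + 1)) → ℕ := fun Z =>
    ((B \ Vlo).filter (fun b => ∀ u ∈ Wwin, φ u ∈ Z.map Function.Embedding.inr → G.Adj u b)).card
  have hgc : ∀ Z, gcount Z < n + 1 := by
    intro Z
    have h1 : gcount Z ≤ B.card := card_le_card ((filter_subset _ _).trans sdiff_subset)
    omega
  let D : Dat s a M n :=
    (fun x y => decide (∃ u ∈ WH, ∃ v ∈ WH, φ u = x ∧ φ v = y ∧ (u = v ∨ G.Adj u v)),
      Vlo.image ψ,
      fun x => (Vlo.filter (fun b => ∃ u ∈ WH, φ u = x ∧ G.Adj u b)).image ψ,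
      fun Z => ⟨gcount Z, hgc Z⟩)
  refine ⟨D, ?_⟩
  unfold dec
  symm
  refine Finset.sum_bij (fun S _ => S.image φ) ?_ ?_ ?_ ?_
  · intro S hS
    rw [mem_cliquesOn] at hS
    rw [mem_filter]
    refine ⟨mem_univ _, ?_⟩
    intro x hx y hy
    rw [mem_image] at hx hy
    obtain ⟨u, hu, rfl⟩ := hx
    obtain ⟨v, hv, rfl⟩ := hy
    simp only [D, decide_eq_true_eq]
    refine ⟨u, hS.1 hu, v, hS.1 hv, rfl, rfl, ?_⟩
    by_cases huv : u = v
    · exact Or.inl huv
    · exact Or.inr (hS.2 hu hv huv)
  · intro S hS S' hS' h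
    rw [mem_cliquesOn] at hS hS'
    ext v
    constructor
    · intro hv
      have : φ v ∈ S'.image φ := by rw [← h]; exact mem_image_of_mem _ hv
      rw [mem_image] at this
      obtain ⟨u, hu, huv⟩ := this
      rw [hφinj v (hS.1 hv) u (hS'.1 hu) huv.symm]
      exact hu
    · intro hv
      have : φ v ∈ S.image φ := by rw [h]; exact mem_image_of_mem _ hv
      rw [mem_image] at this
      obtain ⟨u, hu, huv⟩ := this
      rw [hφinj v (hS'.1 hv) u (hS.1 hu) huv.symm]
      exact hu
  · intro S hS
    rw [mem_filter] at hS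
    have hS2 := hS.2
    simp only [D, decide_eq_true_eq] at hS2
    refine ⟨WH.filter (fun u => φ u ∈ S), ?_, ?_⟩
    · rw [mem_cliquesOn]
      refine ⟨filter_subset _ _, ?_⟩
      intro u hu v hv huv
      rw [mem_coe, mem_filter] at hu hv
      obtain ⟨u', hu', v', hv', h1, h2, h3⟩ := hS2 _ hu.2 _ hv.2
      rw [hφinj u' hu' u hu.1 h1, hφinj v' hv' v hv.1 h2] at h3
      rcases h3 with h3 | h3
      · exact absurd h3 huv
      · exact h3
    · ext x
      rw [mem_image]
      constructor
      · rintro ⟨u, hu, rfl⟩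
        exact (mem_filter.1 hu).2
      · intro hx
        obtain ⟨u, hu, _, _, h1, _, _⟩ := hS2 x hx x hx
        exact ⟨u, mem_filter.2 ⟨hu, by rw [h1]; exact hx⟩, h1⟩
  · intro S hS
    rw [mem_cliquesOn] at hS
    congr 1
    -- split the count
    have hsplit : (B.filter (fun b => ∀ u ∈ S, G.Adj u b)).card =
        (Vlo.filter (fun b => ∀ u ∈ S, G.Adj u b)).card +
        ((B \ Vlo).filter (fun b => ∀ u ∈ S, G.Adj u b)).card := by
      rw [← card_union_of_disjoint]
      · congr 1
        rw [← filter_union, union_sdiff_of_subset (filter_subset _ _)]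
      · exact disjoint_filter_filter disjoint_sdiff
    rw [hsplit]
    congr 1
    · -- the part inside Vlo
      have h1 : (D.2.1.filter (fun j => ∀ x ∈ S.image φ, j ∈ D.2.2.1 x)) =
          (Vlo.filter (fun b => ∀ u ∈ S, G.Adj u b)).image ψ := by
        ext j
        simp only [D, mem_filter, mem_image]
        constructor
        · rintro ⟨⟨b, hb, rfl⟩, h2⟩
          refine ⟨b, ⟨hb, ?_⟩, rfl⟩
          intro u hu
          obtain ⟨b', ⟨hb', u', hu', h3, h4⟩, h5⟩ := h2 (φ u) ⟨u, hu, rfl⟩
          rw [hψinj b' hb' b hb h5, hφinj u' hu' u (hS.1 hu) h3] at h4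
          exact h4
        · rintro ⟨b, ⟨hb, h2⟩, rfl⟩
          refine ⟨⟨b, hb, rfl⟩, ?_⟩
          rintro x ⟨u, hu, rfl⟩
          exact ⟨b, ⟨hb, u, hS.1 hu, rfl, h2 u hu⟩, rfl⟩
      rw [h1, card_image_of_injOn]
      intro b hb b' hb' h
      rw [mem_coe, mem_filter] at hb hb'
      exact hψinj b hb.1 b' hb'.1 h
    · -- the part outside Vlo
      simp only [D, gcount]
      congr 1
      apply filter_congr
      intro b hb
      rw [mem_sdiff, hVlo, mem_filter] at hb
      have hb2 : ∀ w ∈ Wlo, G.Adj w b := by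
        intro w hw
        by_contra hcon
        exact hb.2 ⟨hb.1, w, hw, hcon⟩
      constructor
      · intro h u hu hmem
        apply h
        rw [mem_map] at hmem
        obtain ⟨z, hz, hz2⟩ := hmem
        rw [mem_toRight, mem_image] at hz
        obtain ⟨u', hu', h3⟩ := hz
        have h4 : φ u' = φ u := by rw [h3]; exact hz2
        rw [← hφinj u' (hS.1 hu') u ((hWH' u).2 (Or.inr hu)) h4]
        exact hu'
      · intro h u hu
        rcases (hWH' u).1 (hS.1 hu) with h1 | h1
        · exact hb2 u h1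
        · apply h u h1
          rw [hφwin u h1, mem_map]
          refine ⟨φ2 ⟨u, h1⟩, ?_, rfl⟩
          rw [mem_toRight, mem_image]
          exact ⟨u, hu, hφwin u h1⟩

/-- The large values come from few data. -/
theorem upper_cover (n t s a Jn : ℕ) (m : ℕ → ℕ) (hm : Antitone m)
    (hs : ∀ μ, 4 ^ μ ≤ 3 ^ μ * 2 ^ t → 2 * μ ≤ s) (ha : s < (a + 1) * Jn)
    (G : SimpleGraph (Fin n)) (hG : 2 ^ n ≤ ccOn G univ * 2 ^ t) :
    ∃ i < Jn, ∃ D : Dat s a (s * m (i + 1)) n,
      dec D ≤ ccOn G univ ∧ ccOn G univ ≤ dec D + 2 ^ (n - m i) := by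
  obtain ⟨W, _, μ, hWc, hWcl, hW⟩ := exists_matching G _ (univ : Finset (Fin n)) rfl
  rw [card_univ, Fintype.card_fin] at hW
  obtain ⟨B, hBmem, hWcl⟩ : ∃ B : Finset (Fin n), (∀ v, v ∈ B ↔ v ∉ W) ∧
      G.IsClique (B : Set (Fin n)) := ⟨_, by intro v; simp, hWcl⟩
  have hWs : W.card ≤ s := by
    rw [hWc]
    apply hs
    have h1 : 2 ^ n * 4 ^ μ ≤ 2 ^ n * (3 ^ μ * 2 ^ t) := by
      calc 2 ^ n * 4 ^ μ ≤ ccOn G univ * 2 ^ t * 4 ^ μ := Nat.mul_le_mul_right _ hG
        _ = (ccOn G univ * 4 ^ μ) * 2 ^ t := by ring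
        _ ≤ (3 ^ μ * 2 ^ n) * 2 ^ t := Nat.mul_le_mul_right _ hW
        _ = 2 ^ n * (3 ^ μ * 2 ^ t) := by ring
    exact Nat.le_of_mul_le_mul_left h1 (by positivity)
  let win : ℕ → Finset (Fin n) := fun i =>
    W.filter (fun w => m (i + 1) < miss G B w ∧ miss G B w ≤ m i)
  -- pigeonhole
  have hpig : ∃ i < Jn, (win i).card ≤ a := by
    by_contra hcon
    push Not at hcon
    have h1 : ((range Jn).biUnion win).card = ∑ i ∈ range Jn, (win i).card := by
      apply card_biUnion
      intro i _ j _ hij
      rw [Function.onFun, Finset.disjoint_left]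
      intro w hw hw'
      simp only [win, mem_filter] at hw hw'
      rcases lt_or_gt_of_ne hij with h | h
      · have := hm (show i + 1 ≤ j from h)
        omega
      · have := hm (show j + 1 ≤ i from h)
        omega
    have h2 : ((range Jn).biUnion win).card ≤ W.card := card_le_card (by
      rw [biUnion_subset]
      intro i _
      exact filter_subset _ _)
    have h3 : ∑ i ∈ range Jn, (a + 1) ≤ ∑ i ∈ range Jn, (win i).card :=
      sum_le_sum (fun i hi => hcon i (mem_range.1 hi))
    rw [sum_const, card_range, smul_eq_mul] at h3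
    have h4 : Jn * (a + 1) = (a + 1) * Jn := by ring
    omega
  obtain ⟨i, hi, hwi⟩ := hpig
  refine ⟨i, hi, ?_⟩
  set Wlo := W.filter (fun w => miss G B w ≤ m (i + 1)) with hWlo
  set WH := W.filter (fun w => miss G B w ≤ m i) with hWH
  have hmi : m (i + 1) ≤ m i := hm (by omega)
  have hunion : ∀ v, v ∈ WH ↔ v ∈ Wlo ∨ v ∈ win i := by
    intro w
    simp only [hWlo, hWH, win, mem_filter]
    constructor
    · rintro ⟨h1, h2⟩
      by_cases h3 : miss G B w ≤ m (i + 1)
      · exact Or.inl ⟨h1, h3⟩
      · exact Or.inr ⟨h1, by omega, h2⟩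
    · rintro (⟨h1, h2⟩ | ⟨h1, h2, h3⟩)
      · exact ⟨h1, by omega⟩
      · exact ⟨h1, h3⟩
  have hdisj : Disjoint Wlo (win i) := by
    rw [Finset.disjoint_left]
    intro w hw hw'
    simp only [hWlo, win, mem_filter] at hw hw'
    omega
  have hWloc : Wlo.card ≤ s := (card_le_card (filter_subset _ _)).trans hWs
  have hBn : W.card + B.card = n := by
    have h1 : W ∪ B = univ := by
      ext v
      simp only [mem_union, hBmem, mem_univ, iff_true]
      tauto
    have h2 : Disjoint W B := by
      rw [Finset.disjoint_left]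
      intro v hv hv'
      exact (hBmem v).1 hv' hv
    rw [← card_union_of_disjoint h2, h1, card_univ, Fintype.card_fin]
  have hVlo : (low G B Wlo).card ≤ s * m (i + 1) + 1 := by
    have h1 := card_low_le G B Wlo (m (i + 1)) (fun w hw => (mem_filter.1 hw).2)
    have h2 := Nat.mul_le_mul_right (m (i + 1)) hWloc
    omega
  obtain ⟨D, hD⟩ := exists_dat G B WH Wlo (win i) n s a (s * m (i + 1)) hunion hdisj (by omega)
    (by omega) (by omega) hVlo
  refine ⟨D, ?_⟩
  rw [hD]
  -- the formula for the number of cliques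
  have hT : ccOn G univ = ∑ S ∈ cliquesOn G W, 2 ^ cnt G B S := by
    apply ccOn_eq_sum_cnt
    · intro v
      simp only [mem_univ, hBmem, true_iff]
      tauto
    · rw [Finset.disjoint_left]
      intro v hv hv'
      exact (hBmem v).1 hv' hv
    · exact hWcl
  have hsub : cliquesOn G WH ⊆ cliquesOn G W := by
    intro S hS
    rw [mem_cliquesOn] at hS ⊢
    exact ⟨hS.1.trans (filter_subset _ _), hS.2⟩
  rw [hT, ← Finset.sum_sdiff hsub]
  constructor
  · omega
  · have h1 : ∑ S ∈ cliquesOn G W \ cliquesOn G WH, 2 ^ cnt G B S ≤ 2 ^ (n - m i) := by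
      by_cases hne : (cliquesOn G W \ cliquesOn G WH) = ∅
      · rw [hne]; simp
      · have hkey : ∀ S ∈ cliquesOn G W \ cliquesOn G WH,
            cnt G B S + m i ≤ B.card := by
          intro S hS
          rw [mem_sdiff, mem_cliquesOn, mem_cliquesOn] at hS
          have : ∃ w ∈ S, w ∉ WH := by
            by_contra hcon
            push Not at hcon
            exact hS.2 ⟨hcon, hS.1.2⟩
          obtain ⟨w, hw, hwH⟩ := this
          have hmw : m i < miss G B w := by
            by_contra hcon
            exact hwH (mem_filter.2 ⟨hS.1.1 hw, by omega⟩)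
          have := cnt_add_miss_le G B S w hw
          omega
        obtain ⟨S0, hS0⟩ := Finset.nonempty_iff_ne_empty.2 hne
        have hBm := hkey S0 hS0
        calc ∑ S ∈ cliquesOn G W \ cliquesOn G WH, 2 ^ cnt G B S
            ≤ ∑ S ∈ cliquesOn G W \ cliquesOn G WH, 2 ^ (B.card - m i) := by
              apply sum_le_sum
              intro S hS
              have := hkey S hS
              exact Nat.pow_le_pow_right (by norm_num) (by omega)
          _ = (cliquesOn G W \ cliquesOn G WH).card * 2 ^ (B.card - m i) := by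
              rw [sum_const, smul_eq_mul]
          _ ≤ 2 ^ W.card * 2 ^ (B.card - m i) := by
              apply Nat.mul_le_mul_right
              exact (card_le_card sdiff_subset).trans (ccOn_le G W)
          _ = 2 ^ (n - m i) := by
              rw [← pow_add]
              congr 1
              omega
    omega

/-- Bound for the number of large values. -/
theorem upper_count (n t s a Jn : ℕ) (m : ℕ → ℕ) (hm : Antitone m)
    (hs : ∀ μ, 4 ^ μ ≤ 3 ^ μ * 2 ^ t → 2 * μ ≤ s) (ha : s < (a + 1) * Jn) (Z : Finset ℕ)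
    (hZ : ∀ T ∈ Z, 2 ^ n ≤ T * 2 ^ t ∧ ∃ G : SimpleGraph (Fin n), ccOn G univ = T) :
    Z.card ≤ ∑ i ∈ range Jn, 2 ^ ((s + a + 2) ^ 2 + (s * m (i + 1) + 1) * (s + a + 3)) *
      (n + 1) ^ (2 ^ (a + 1)) * (2 ^ (n - m i) + 1) := by
  classical
  have hsub : Z ⊆ (range Jn).biUnion (fun i => (univ : Finset (Dat s a (s * m (i + 1)) n)).biUnion
      (fun D => Finset.Icc (dec D) (dec D + 2 ^ (n - m i)))) := by
    intro T hT
    obtain ⟨h1, G, rfl⟩ := hZ T hT
    obtain ⟨i, hi, D, hD1, hD2⟩ := upper_cover n t s a Jn m hm hs ha G h1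
    rw [mem_biUnion]
    refine ⟨i, mem_range.2 hi, ?_⟩
    rw [mem_biUnion]
    exact ⟨D, mem_univ _, mem_Icc.2 ⟨hD1, hD2⟩⟩
  calc Z.card ≤ _ := card_le_card hsub
    _ ≤ ∑ i ∈ range Jn, ((univ : Finset (Dat s a (s * m (i + 1)) n)).biUnion
      (fun D => Finset.Icc (dec D) (dec D + 2 ^ (n - m i)))).card := card_biUnion_le
    _ ≤ ∑ i ∈ range Jn, 2 ^ ((s + a + 2) ^ 2 + (s * m (i + 1) + 1) * (s + a + 3)) *
      (n + 1) ^ (2 ^ (a + 1)) * (2 ^ (n - m i) + 1) := by
        apply sum_le_sum
        intro i _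
        calc _ ≤ ∑ D ∈ (univ : Finset (Dat s a (s * m (i + 1)) n)),
              (Finset.Icc (dec D) (dec D + 2 ^ (n - m i))).card := card_biUnion_le
          _ = ∑ D ∈ (univ : Finset (Dat s a (s * m (i + 1)) n)), (2 ^ (n - m i) + 1) := by
              apply sum_congr rfl
              intro D _
              rw [Nat.card_Icc, add_assoc, Nat.add_sub_cancel_left]
          _ = _ := by
              rw [sum_const, smul_eq_mul, card_univ, card_Dat]

end Pool.Agent.Helper42.CliqueCounts
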