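import Mathlib
import Pool.Agent.Helper42.CliqueCounts.Upper
import Pool.Agent.Helper42.CliqueCounts.Lower

set_option autoImplicit false

open Finset Filter

namespace Pool.Agent.Helper42.CliqueCounts

lemma hs_aux (t μ : ℕ) (h : 4 ^ μ ≤ 3 ^ μ * 2 ^ t) : 2 * μ ≤ 5 * t := by
  have h1 : ((4 : ℝ) / 3) ^ μ ≤ 2 ^ t := by
    rw [div_pow, div_le_iff₀ (by positivity)]
    have : (4 : ℝ) ^ μ ≤ 3 ^ μ * 2 ^ t := by exact_mod_cast h
    linarith
  have h2 : ((4 : ℝ) / 3) ^ (2 * μ) ≤ (4 / 3) ^ (5 * t) := by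
    calc ((4 : ℝ) / 3) ^ (2 * μ) = (((4 : ℝ) / 3) ^ μ) ^ 2 := by rw [mul_comm, pow_mul]
      _ ≤ (2 ^ t) ^ 2 := by gcongr
      _ = 4 ^ t := by rw [← pow_mul, mul_comm, pow_mul]; norm_num
      _ ≤ (((4 : ℝ) / 3) ^ 5) ^ t := by gcongr; norm_num
      _ = (4 / 3) ^ (5 * t) := by rw [← pow_mul]
  exact (pow_le_pow_iff_right₀ (by norm_num : (1 : ℝ) < 4 / 3)).1 h2

/-- The explicit form of the upper bound. -/
theorem upper_explicit (n k t Jn : ℕ) (hk : 1000 ≤ k) (ht : t ≤ k ^ 2) (hJ : 1 ≤ Jn) (x : ℝ)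
    (hm : ∀ i < Jn, x ≤ ((n / (k ^ 5) ^ i : ℕ) : ℝ))
    (hx1 : 16 * (121 * (k : ℝ) ^ 4 + 11 * (k : ℝ) ^ 2) ≤ x)
    (hx2 : 16 * (2 ^ (5 * t / Jn + 1) * ((Nat.log 2 n + 1 : ℕ) : ℝ)) ≤ x)
    (Z : Finset ℕ)
    (hZ : ∀ T ∈ Z, 2 ^ n ≤ T * 2 ^ t ∧ ∃ G : SimpleGraph (Fin n), ccOn G univ = T) :
    (Z.card : ℝ) ≤ Jn * 2 ^ ((n : ℝ) - x / 2 + 1) := by
  set s := 5 * t with hs
  set a := s / Jn with ha
  have hkpos : 0 < k ^ 5 := by positivity
  have hanti : Antitone (fun i => n / (k ^ 5) ^ i) := by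
    intro i j hij
    exact Nat.div_le_div_left (Nat.pow_le_pow_right hkpos hij) (by positivity)
  have h := upper_count n t s a Jn (fun i => n / (k ^ 5) ^ i) hanti
    (fun μ hμ => hs_aux t μ hμ) (by
      have h1 := Nat.div_add_mod s Jn
      rw [← ha] at h1
      have h2 := Nat.mod_lt s (show Jn > 0 by omega)
      have h3 : (a + 1) * Jn = Jn * a + Jn := by ring
      rw [h3]
      omega) Z hZ
  have hterm : ∀ i ∈ range Jn, ((2 ^ ((s + a + 2) ^ 2 + (s * (n / (k ^ 5) ^ (i + 1)) + 1) * (s + a + 3)) *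
      (n + 1) ^ (2 ^ (a + 1)) * (2 ^ (n - n / (k ^ 5) ^ i) + 1) : ℕ) : ℝ) ≤
      2 ^ ((n : ℝ) - x / 2 + 1) := by
    intro i hi
    rw [mem_range] at hi
    set M := n / (k ^ 5) ^ i with hM
    set M' := n / (k ^ 5) ^ (i + 1) with hM'
    have hxM := hm i hi
    have hMn : M ≤ n := Nat.div_le_self _ _
    have hMM' : k ^ 5 * M' ≤ M := by
      have : M' = M / k ^ 5 := by
        rw [hM', hM, pow_succ, Nat.div_div_eq_div_mul]
      rw [this]
      exact Nat.mul_div_le _ _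
    have has : a ≤ s := Nat.div_le_self _ _
    -- the exponent
    set E1 := (s + a + 2) ^ 2 + (s * M' + 1) * (s + a + 3) with hE1
    set E2 := (Nat.log 2 n + 1) * 2 ^ (a + 1) with hE2
    have hE : E1 + E2 ≤ M / 2 := by
      have hk2 : 1000 * 1000 ≤ k ^ 2 := by nlinarith
      have h1 : s + a + 2 ≤ 11 * k ^ 2 := by
        have : s + a + 2 ≤ 10 * t + 2 := by omega
        omega
      have h1' : s + a + 3 ≤ 11 * k ^ 2 := by
        have : s + a + 3 ≤ 10 * t + 3 := by omega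
        omega
      have h2 : (s + a + 2) ^ 2 ≤ 121 * k ^ 4 := by
        calc (s + a + 2) ^ 2 ≤ (11 * k ^ 2) ^ 2 := Nat.pow_le_pow_left h1 2
          _ = 121 * k ^ 4 := by ring
      have h3 : (s * M' + 1) * (s + a + 3) ≤ 55 * k ^ 4 * M' + 11 * k ^ 2 := by
        calc (s * M' + 1) * (s + a + 3) ≤ (5 * k ^ 2 * M' + 1) * (11 * k ^ 2) := by
              apply Nat.mul_le_mul _ h1'
              have : s * M' ≤ 5 * k ^ 2 * M' := Nat.mul_le_mul_right _ (by omega)
              omega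
          _ = 55 * k ^ 4 * M' + 11 * k ^ 2 := by ring
      have h4 : 16 * (55 * k ^ 4 * M') ≤ M := by
        calc 16 * (55 * k ^ 4 * M') = 880 * (k ^ 4 * M') := by ring
          _ ≤ k * (k ^ 4 * M') := Nat.mul_le_mul_right _ (by omega)
          _ = k ^ 5 * M' := by ring
          _ ≤ M := hMM'
      have h5 : 16 * (121 * k ^ 4 + 11 * k ^ 2) ≤ M := by
        have : (16 * (121 * (k : ℝ) ^ 4 + 11 * (k : ℝ) ^ 2)) ≤ (M : ℝ) := hx1.trans hxM
        exact_mod_cast this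
      have h6 : 16 * E2 ≤ M := by
        have : (16 * (2 ^ (a + 1) * ((Nat.log 2 n + 1 : ℕ) : ℝ))) ≤ (M : ℝ) := hx2.trans hxM
        have h7 : 16 * (2 ^ (a + 1) * (Nat.log 2 n + 1)) ≤ M := by exact_mod_cast this
        rw [hE2, mul_comm (Nat.log 2 n + 1)]
        exact h7
      omega
    have hn1 : (n + 1) ^ (2 ^ (a + 1)) ≤ 2 ^ E2 := by
      have : n + 1 ≤ 2 ^ (Nat.log 2 n + 1) := Nat.lt_pow_succ_log_self (by norm_num) n
      calc (n + 1) ^ (2 ^ (a + 1)) ≤ (2 ^ (Nat.log 2 n + 1)) ^ (2 ^ (a + 1)) :=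
            Nat.pow_le_pow_left this _
        _ = 2 ^ E2 := by rw [← pow_mul]
    have hprod : 2 ^ E1 * (n + 1) ^ (2 ^ (a + 1)) * (2 ^ (n - M) + 1) ≤ 2 ^ (n - M + M / 2 + 1) := by
      calc 2 ^ E1 * (n + 1) ^ (2 ^ (a + 1)) * (2 ^ (n - M) + 1)
          ≤ 2 ^ E1 * 2 ^ E2 * (2 * 2 ^ (n - M)) := by
            apply Nat.mul_le_mul (Nat.mul_le_mul_left _ hn1)
            have : 1 ≤ 2 ^ (n - M) := Nat.one_le_two_pow
            omega
        _ = 2 ^ (E1 + E2 + (n - M) + 1) := by ring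
        _ ≤ 2 ^ (n - M + M / 2 + 1) := Nat.pow_le_pow_right (by norm_num) (by omega)
    calc ((2 ^ E1 * (n + 1) ^ (2 ^ (a + 1)) * (2 ^ (n - M) + 1) : ℕ) : ℝ)
        ≤ ((2 ^ (n - M + M / 2 + 1) : ℕ) : ℝ) := by exact_mod_cast hprod
      _ = (2 : ℝ) ^ (((n - M + M / 2 + 1 : ℕ)) : ℝ) := by
          rw [Real.rpow_natCast]; norm_cast
      _ ≤ 2 ^ ((n : ℝ) - x / 2 + 1) := by
          apply Real.rpow_le_rpow_of_exponent_le (by norm_num)
          push_cast [hMn]
          have : ((M / 2 : ℕ) : ℝ) ≤ (M : ℝ) / 2 := Nat.cast_div_le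
          linarith
  calc (Z.card : ℝ) ≤ ((∑ i ∈ range Jn, 2 ^ ((s + a + 2) ^ 2 + (s * (n / (k ^ 5) ^ (i + 1)) + 1) * (s + a + 3)) *
      (n + 1) ^ (2 ^ (a + 1)) * (2 ^ (n - n / (k ^ 5) ^ i) + 1) : ℕ) : ℝ) := by exact_mod_cast h
    _ = ∑ i ∈ range Jn, ((2 ^ ((s + a + 2) ^ 2 + (s * (n / (k ^ 5) ^ (i + 1)) + 1) * (s + a + 3)) *
      (n + 1) ^ (2 ^ (a + 1)) * (2 ^ (n - n / (k ^ 5) ^ i) + 1) : ℕ) : ℝ) := by rw [Nat.cast_sum]
    _ ≤ ∑ i ∈ range Jn, (2 : ℝ) ^ ((n : ℝ) - x / 2 + 1) := sum_le_sum hterm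
    _ = Jn * 2 ^ ((n : ℝ) - x / 2 + 1) := by rw [sum_const, card_range, nsmul_eq_mul]

lemma tendsto_div_log : Tendsto (fun x : ℝ => x / Real.log x) atTop atTop := by
  have h2 : Tendsto (fun x : ℝ => Real.log x / x) atTop (nhds 0) :=
    Real.isLittleO_log_id_atTop.tendsto_div_nhds_zero
  have h3 : ∀ᶠ x : ℝ in atTop, 0 < Real.log x / x := by
    filter_upwards [eventually_gt_atTop 1] with x hx
    exact div_pos (Real.log_pos hx) (by linarith)
  have h4 : Tendsto (fun x : ℝ => (Real.log x / x)⁻¹) atTop atTop :=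
    Tendsto.inv_tendsto_nhdsGT_zero (tendsto_nhdsWithin_iff.2 ⟨h2, h3⟩)
  refine h4.congr ?_
  intro x
  rw [inv_div]

lemma ev_pow_le_exp (k : ℕ) (b C : ℝ) (hb : 0 < b) (hC : 0 < C) :
    ∀ᶠ x : ℝ in atTop, C * x ^ k ≤ Real.exp (b * x) := by
  have h := (isLittleO_pow_exp_pos_mul_atTop (k := k) hb).bound (show (0 : ℝ) < C⁻¹ by positivity)
  filter_upwards [h, eventually_ge_atTop 0] with x hx hx0
  rw [Real.norm_eq_abs, Real.norm_eq_abs, abs_of_nonneg (by positivity),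
    abs_of_nonneg (Real.exp_pos _).le] at hx
  rw [inv_mul_eq_div, le_div_iff₀ hC] at hx
  linarith

/-- Part 2: very few integers above `2 ^ (n - c L(n))` belong to `S_n`. -/
theorem part2 (δ : ℝ) (hδ : 0 < δ) : ∃ c : ℝ, 0 < c ∧ ∀ᶠ n : ℕ in atTop,
    (({m | m ∈ cliqueCounts n ∧ (2 : ℝ) ^ ((n : ℝ) - c * L n) ≤ (m : ℝ)} : Set ℕ).ncard : ℝ) ≤
      2 ^ ((n : ℝ) - (n : ℝ) ^ (1 - δ)) := by
  set d : ℝ := min (δ / 2) (1 / 4) with hd
  have hd0 : 0 < d := lt_min (by linarith) (by norm_num)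
  have hd1 : d ≤ 1 / 4 := min_le_right _ _
  have hdδ : d ≤ δ / 2 := min_le_left _ _
  have hγ : 0 < δ - d := by linarith
  set c : ℝ := d / 800 with hc
  have hc0 : 0 < c := by positivity
  refine ⟨c, hc0, ?_⟩
  -- eventual facts
  have P2 : ∀ᶠ x : ℝ in atTop, 20 / d ≤ x / Real.log x := tendsto_div_log.eventually_ge_atTop _
  have P3 : ∀ᶠ x : ℝ in atTop, 1 / c ≤ x / Real.log x := tendsto_div_log.eventually_ge_atTop _
  have P4 := ev_pow_le_exp 4 (3 / 4) 31680 (by norm_num) (by norm_num)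
  have P5 := ev_pow_le_exp 1 (1 / 2) 96 (by norm_num) (by norm_num)
  have P6 := ev_pow_le_exp 1 (3 / 4) 8 (by norm_num) (by norm_num)
  have P7 := ev_pow_le_exp 0 (δ - d) 4 hγ (by norm_num)
  have P : ∀ᶠ n : ℕ in atTop, 1000 ≤ Real.log n ∧ 20 / d ≤ Real.log n / Real.log (Real.log n) ∧
      1 / c ≤ Real.log n / Real.log (Real.log n) ∧
      31680 * Real.log n ^ 4 ≤ Real.exp (3 / 4 * Real.log n) ∧
      96 * Real.log n ^ 1 ≤ Real.exp (1 / 2 * Real.log n) ∧
      8 * Real.log n ^ 1 ≤ Real.exp (3 / 4 * Real.log n) ∧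
      4 * Real.log n ^ 0 ≤ Real.exp ((δ - d) * Real.log n) :=
    tendsto_log_nat.eventually ((eventually_ge_atTop 1000).and
      (P2.and (P3.and (P4.and (P5.and (P6.and P7))))))
  filter_upwards [P, eventually_ge_atTop 1] with n hP hn1
  obtain ⟨h1, h2, h3, h4, h5, h6, h7⟩ := hP
  set x := Real.log n with hx
  rw [pow_one] at h5 h6
  rw [pow_zero, mul_one] at h7
  have hn0 : (0 : ℝ) < n := by exact_mod_cast hn1
  have hnexp : (n : ℝ) = Real.exp x := by rw [hx, Real.exp_log hn0]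
  have hx0 : 0 < x := by linarith
  have hlogx : 1 ≤ Real.log x := by
    rw [Real.le_log_iff_exp_le hx0]
    have := Real.exp_one_lt_d9
    linarith
  have hlogx0 : 0 < Real.log x := by linarith
  have hLn : L n = x ^ 2 / Real.log x := rfl
  -- parameters
  set k := ⌈x⌉₊ with hk
  have hkx : x ≤ k := Nat.le_ceil x
  have hkx2 : (k : ℝ) ≤ 2 * x := by
    have := (Nat.ceil_lt_add_one hx0.le).le
    linarith
  have hk1000 : 1000 ≤ k := by
    have : (1000 : ℝ) ≤ k := h1.trans hkx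
    exact_mod_cast this
  set t := ⌈c * L n⌉₊ with ht
  have hcL0 : 0 ≤ c * L n := by rw [hLn]; positivity
  have htk : t ≤ k ^ 2 := by
    apply Nat.ceil_le.2
    push_cast
    have h8 : L n ≤ x ^ 2 := by
      rw [hLn]
      exact div_le_self (by positivity) hlogx
    have h9 : c ≤ 1 := by rw [hc]; linarith
    calc c * L n ≤ 1 * x ^ 2 := by
          apply mul_le_mul h9 h8 _ (by norm_num)
          rw [hLn]; positivity
      _ = x ^ 2 := one_mul _
      _ ≤ (k : ℝ) ^ 2 := by gcongr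
  have hlogk0 : 0 < Real.log k := Real.log_pos (by
    have : (1000 : ℝ) ≤ k := by exact_mod_cast hk1000
    linarith)
  have hlogk : Real.log k ≤ 2 * Real.log x := by
    have : Real.log k ≤ Real.log (x ^ 2) := by
      apply Real.log_le_log
      · have : (1000 : ℝ) ≤ k := by exact_mod_cast hk1000
        linarith
      · nlinarith
    rw [Real.log_pow] at this
    exact_mod_cast this
  set Jn := ⌊d * x / (5 * Real.log k)⌋₊ with hJn
  have hJle : (Jn : ℝ) ≤ d * x / (5 * Real.log k) := Nat.floor_le (by positivity)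
  have hJge : d * x / (20 * Real.log x) ≤ Jn := by
    have h8 : d * x / (5 * Real.log k) < Jn + 1 := Nat.lt_floor_add_one _
    have h9 : d * x / (10 * Real.log x) ≤ d * x / (5 * Real.log k) := by
      apply div_le_div_of_nonneg_left (by positivity) (by positivity)
      linarith
    have h10 : 1 ≤ d * x / (20 * Real.log x) := by
      have h11 : 20 / d * (d / 20) ≤ x / Real.log x * (d / 20) := by gcongr
      have h12 : 20 / d * (d / 20) = 1 := by field_simp
      have h13 : x / Real.log x * (d / 20) = d * x / (20 * Real.log x) := by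
        field_simp
      rw [h12, h13] at h11
      exact h11
    have h14 : d * x / (10 * Real.log x) = 2 * (d * x / (20 * Real.log x)) := by
      field_simp; ring
    linarith
  have hJ1 : 1 ≤ Jn := by
    have h10 : 1 ≤ d * x / (20 * Real.log x) := by
      have h11 : 20 / d * (d / 20) ≤ x / Real.log x * (d / 20) := by gcongr
      have h12 : 20 / d * (d / 20) = 1 := by field_simp
      have h13 : x / Real.log x * (d / 20) = d * x / (20 * Real.log x) := by
        field_simp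
      rw [h12, h13] at h11
      exact h11
    have : (1 : ℝ) ≤ Jn := h10.trans hJge
    exact_mod_cast this
  have hJ0 : (0 : ℝ) < Jn := by exact_mod_cast hJ1
  -- the bound for a
  have ha : ((5 * t / Jn : ℕ) : ℝ) ≤ x / 4 := by
    have h8 : ((5 * t / Jn : ℕ) : ℝ) ≤ (5 * t : ℕ) / (Jn : ℝ) := Nat.cast_div_le
    have h9 : (t : ℝ) ≤ c * L n + 1 := (Nat.ceil_lt_add_one hcL0).le
    have h10 : 1 ≤ c * L n := by
      have h11 : (1 : ℝ) ≤ c * (x / Real.log x) := by
        have : c * (1 / c) ≤ c * (x / Real.log x) := by gcongr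
        rwa [mul_one_div_cancel hc0.ne'] at this
      have h12 : x / Real.log x ≤ L n := by
        rw [hLn]
        gcongr
        nlinarith
      nlinarith
    have h11 : ((5 * t : ℕ) : ℝ) ≤ 10 * (c * L n) := by push_cast; linarith
    refine h8.trans ?_
    rw [div_le_iff₀ hJ0]
    refine h11.trans ?_
    have h12 : x / 4 * (d * x / (20 * Real.log x)) ≤ x / 4 * Jn := by gcongr
    refine le_trans (le_of_eq ?_) h12
    rw [hLn, hc]
    field_simp
    norm_num
  -- lower bound for the thresholds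
  have hpow : ((k : ℝ) ^ 5) ^ Jn ≤ Real.exp (d * x) := by
    have hk0 : (0 : ℝ) < k := by
      have : (1000 : ℝ) ≤ k := by exact_mod_cast hk1000
      linarith
    have e : ((k : ℝ) ^ 5) ^ Jn = Real.exp (5 * Jn * Real.log k) := by
      rw [← pow_mul, ← Real.exp_log (show (0 : ℝ) < (k : ℝ) ^ (5 * Jn) by positivity), Real.log_pow]
      push_cast
      rfl
    rw [e]
    apply Real.exp_le_exp.2
    rw [le_div_iff₀ (by positivity)] at hJle
    linarith
  have hnd : (n : ℝ) ^ (1 - d) = Real.exp ((1 - d) * x) := by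
    rw [hnexp, ← Real.exp_mul, mul_comm]
  have hnδ : (n : ℝ) ^ (1 - δ) = Real.exp ((1 - δ) * x) := by
    rw [hnexp, ← Real.exp_mul, mul_comm]
  set X := Real.exp ((1 - d) * x) with hX
  have hX34 : Real.exp (3 / 4 * x) ≤ X := by
    apply Real.exp_le_exp.2
    nlinarith
  have hXpos : 1 ≤ X := by
    apply Real.one_le_exp
    nlinarith
  have hm : ∀ i < Jn, X ≤ ((n / (k ^ 5) ^ i : ℕ) : ℝ) := by
    intro i hi
    have hk5 : (0 : ℝ) < ((k : ℝ) ^ 5) ^ i := by
      have : (1000 : ℝ) ≤ k := by exact_mod_cast hk1000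
      positivity
    have h8 : (X + 1) * ((k : ℝ) ^ 5) ^ i ≤ n := by
      have h9 : X + 1 ≤ X * (k : ℝ) ^ 5 := by
        have h10 : (1000 : ℝ) ≤ k := by exact_mod_cast hk1000
        have h11 : (2 : ℝ) ≤ (k : ℝ) ^ 5 := by
          calc (2 : ℝ) ≤ 1000 ^ 5 := by norm_num
            _ ≤ (k : ℝ) ^ 5 := by gcongr
        nlinarith
      calc (X + 1) * ((k : ℝ) ^ 5) ^ i ≤ X * (k : ℝ) ^ 5 * ((k : ℝ) ^ 5) ^ i := by gcongr
        _ = X * ((k : ℝ) ^ 5) ^ (i + 1) := by ring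
        _ ≤ X * ((k : ℝ) ^ 5) ^ Jn := by
            have h10 : (1000 : ℝ) ≤ k := by exact_mod_cast hk1000
            have h11 : (1 : ℝ) ≤ (k : ℝ) ^ 5 := by
              calc (1 : ℝ) ≤ 1000 ^ 5 := by norm_num
                _ ≤ (k : ℝ) ^ 5 := by gcongr
            gcongr
            omega
        _ ≤ X * Real.exp (d * x) := by gcongr
        _ = n := by
            rw [hX, ← Real.exp_add, hnexp]
            congr 1
            ring
    have h9 : X + 1 ≤ (n : ℝ) / ((k : ℝ) ^ 5) ^ i := by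
      rw [le_div_iff₀ hk5]; exact h8
    have h10 : (n : ℝ) / ((k : ℝ) ^ 5) ^ i < ((n / (k ^ 5) ^ i : ℕ) : ℝ) + 1 := by
      have h11 : 0 < (k ^ 5) ^ i := by positivity
      rw [div_lt_iff₀ hk5]
      have h12 : n < (n / (k ^ 5) ^ i + 1) * (k ^ 5) ^ i := by
        rw [mul_comm]
        exact Nat.lt_mul_div_succ n h11
      exact_mod_cast h12
    linarith
  have hx1 : 16 * (121 * (k : ℝ) ^ 4 + 11 * (k : ℝ) ^ 2) ≤ X := by
    refine le_trans ?_ (h4.trans hX34)
    have h8 : (k : ℝ) ^ 4 ≤ (2 * x) ^ 4 := by gcongr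
    have h9 : (k : ℝ) ^ 2 ≤ (2 * x) ^ 2 := by gcongr
    have h10 : x ^ 2 ≤ x ^ 4 := by
      apply pow_le_pow_right₀ (by linarith) (by norm_num)
    nlinarith
  have hx2 : 16 * (2 ^ (5 * t / Jn + 1) * ((Nat.log 2 n + 1 : ℕ) : ℝ)) ≤ X := by
    have h8 : ((Nat.log 2 n : ℕ) : ℝ) ≤ 2 * x := by
      have h9 : ((Nat.log 2 n : ℕ) : ℝ) ≤ Real.logb 2 n := Real.natLog_le_logb n 2
      rw [Real.logb, ← hx] at h9
      refine h9.trans ?_
      rw [div_le_iff₀ (Real.log_pos (by norm_num))]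
      have := Real.log_two_gt_d9
      nlinarith
    have h9 : (2 : ℝ) ^ (5 * t / Jn + 1) ≤ 2 * Real.exp (x / 4) := by
      rw [pow_succ, mul_comm]
      have h10 : (2 : ℝ) ^ (5 * t / Jn) ≤ Real.exp (x / 4) := by
        rw [← Real.rpow_natCast, Real.rpow_def_of_pos (by norm_num)]
        apply Real.exp_le_exp.2
        have := Real.log_two_lt_d9
        have h11 : (0 : ℝ) ≤ ((5 * t / Jn : ℕ) : ℝ) := Nat.cast_nonneg _
        nlinarith [Real.log_pos (show (1 : ℝ) < 2 by norm_num)]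
      linarith
    calc 16 * (2 ^ (5 * t / Jn + 1) * ((Nat.log 2 n + 1 : ℕ) : ℝ))
        ≤ 16 * ((2 * Real.exp (x / 4)) * (3 * x)) := by
          have h10 : ((Nat.log 2 n + 1 : ℕ) : ℝ) ≤ 3 * x := by push_cast; linarith
          gcongr
      _ = Real.exp (x / 4) * (96 * x) := by ring
      _ ≤ Real.exp (x / 4) * Real.exp (1 / 2 * x) := by gcongr
      _ = Real.exp (3 / 4 * x) := by
          rw [← Real.exp_add]
          congr 1
          ring
      _ ≤ X := hX34
  -- the finite set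
  set SS : Set ℕ := {m | m ∈ cliqueCounts n ∧ (2 : ℝ) ^ ((n : ℝ) - c * L n) ≤ (m : ℝ)} with hSS
  have hfin : SS.Finite := by
    apply Set.Finite.subset (Set.finite_Iic (2 ^ n))
    rintro m ⟨⟨G, rfl⟩, _⟩
    rw [Set.mem_Iic]
    have := ccOn_le G (univ : Finset (Fin n))
    rw [ccOn_univ_eq, card_univ, Fintype.card_fin] at this
    omega
  set Z : Finset ℕ := hfin.toFinset.map ⟨fun m => m + 1, fun a b h => by simpa using h⟩ with hZdef
  have hZcard : Z.card = SS.ncard := by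
    rw [hZdef, card_map, Set.ncard_eq_toFinset_card SS hfin]
  have key := upper_explicit n k t Jn hk1000 htk hJ1 X hm hx1 hx2 Z (by
    intro T hT
    rw [hZdef, Finset.mem_map] at hT
    obtain ⟨m, hm, rfl⟩ := hT
    rw [Set.Finite.mem_toFinset] at hm
    obtain ⟨⟨G, hG⟩, hm2⟩ := hm
    simp only [Function.Embedding.coeFn_mk]
    refine ⟨?_, G, ?_⟩
    · have h8 : (2 : ℝ) ^ n ≤ ((m : ℝ) + 1) * 2 ^ t := by
        calc (2 : ℝ) ^ n = 2 ^ ((n : ℝ) - c * L n) * 2 ^ (c * L n) := by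
              rw [← Real.rpow_add (by norm_num), sub_add_cancel, Real.rpow_natCast]
          _ ≤ ((m : ℝ) + 1) * 2 ^ t := by
              apply mul_le_mul _ _ (by positivity) (by positivity)
              · linarith
              · rw [← Real.rpow_natCast 2 t]
                apply Real.rpow_le_rpow_of_exponent_le (by norm_num)
                exact Nat.le_ceil _
      exact_mod_cast h8
    · rw [ccOn_univ_eq, hG])
  rw [hZcard] at key
  refine key.trans ?_
  rw [hnδ]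
  have hJx : (Jn : ℝ) ≤ 2 ^ x := by
    have h8 : (Jn : ℝ) ≤ x := by
      refine hJle.trans ?_
      rw [div_le_iff₀ (by positivity)]
      have h9 : Real.log x ≤ Real.log k := Real.log_le_log hx0 hkx
      nlinarith
    refine h8.trans ?_
    have h9 : x * Real.log 2 + 1 ≤ Real.exp (x * Real.log 2) := Real.add_one_le_exp _
    rw [Real.rpow_def_of_pos (by norm_num), mul_comm]
    have h10 : x ≤ Real.exp (x * Real.log 2) := by
      have h11 : (x * Real.log 2 / 2) + 1 ≤ Real.exp (x * Real.log 2 / 2) := Real.add_one_le_exp _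
      have h12 : Real.exp (x * Real.log 2) = Real.exp (x * Real.log 2 / 2) ^ 2 := by
        rw [← Real.exp_nat_mul]
        congr 1
        push_cast
        ring
      rw [h12]
      have h13 := Real.log_two_gt_d9
      have h14 : (x / 3) + 1 ≤ Real.exp (x * Real.log 2 / 2) := by nlinarith
      nlinarith
    exact h10
  calc (Jn : ℝ) * 2 ^ ((n : ℝ) - X / 2 + 1) ≤ 2 ^ x * 2 ^ ((n : ℝ) - X / 2 + 1) := by gcongr
    _ = 2 ^ (x + ((n : ℝ) - X / 2 + 1)) := by rw [← Real.rpow_add (by norm_num)]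
    _ ≤ 2 ^ ((n : ℝ) - Real.exp ((1 - δ) * x)) := by
        apply Real.rpow_le_rpow_of_exponent_le (by norm_num)
        have h8 : 4 * Real.exp ((1 - δ) * x) ≤ X := by
          have e : X = Real.exp ((δ - d) * x) * Real.exp ((1 - δ) * x) := by
            rw [hX, ← Real.exp_add]
            congr 1
            ring
          rw [e]
          have := Real.exp_pos ((1 - δ) * x)
          nlinarith
        have h9 : 8 * x ≤ X := h6.trans hX34
        linarith

end Pool.Agent.Helper42.CliqueCounts
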