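import Mathlib
import Pool.Agent.Helper42.CliqueCounts.UpperAsym

set_option autoImplicit false

namespace Pool.Agent.Helper42.CliqueCounts.OldSparseTop

open Pool.Agent.Helper42.CliqueCounts Filter

/-- Above the scale `2 ^ (n - c L(n))`, `L(n) = (log n)^2 / log log n`, the set `S_n` of numbers of
complete subgraphs of graphs on `n` vertices is extremely sparse. -/
theorem result : ∀ δ : ℝ, 0 < δ → ∃ c : ℝ, 0 < c ∧ ∀ᶠ n : ℕ in atTop,
    (({m | m ∈ cliqueCounts n ∧ (2 : ℝ) ^ ((n : ℝ) - c * L n) ≤ (m : ℝ)} : Set ℕ).ncard : ℝ) ≤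
      2 ^ ((n : ℝ) - (n : ℝ) ^ (1 - δ)) :=
  part2

end Pool.Agent.Helper42.CliqueCounts.OldSparseTop
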